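import Pool.Agent.X333.PW.Hgt

/-!
Varieties dominated, with bounded degree, by the subvarieties of unions of images.
-/

set_option autoImplicit false
set_option maxHeartbeats 400000
set_option linter.overlappingInstances false
set_option linter.unusedSectionVars false

open FF Pool.Agent.W603.LV

namespace Pool.Agent.X333.PW

open Pool.Agent.W602.GT Pool.Agent.TH466.QG Pool.Agent.Y221.BD Pool.Agent.Y221.AH
  Pool.Agent.TH710.ND Pool.Agent.X333.DN Pool.Agent.Y221.FQ Pool.Agent.X333.DC

section one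

variable {k : Type} [Field k] [IsAlgClosed k] [CharZero k] {n M : ℕ} {ι μ : Type}
  {F : ι → MvPolynomial (Fin (n + 1)) k} {Q : MvPolynomial (Fin (n + 1)) k}
  {Φ : μ → MvPolynomial (Fin (M + 1)) k} {G : Fin (M + 1) → MvPolynomial (Fin (n + 1)) k}

/-- **Subvarieties and subfields of their function fields.** -/
theorem sub_van_rho (hΦ : ∀ e, IsForm (Φ e)) (hG : MapOn F Q Φ G) {r s N h ρ : ℕ}
    (hfib : FibLe F Q G r) (hF : HighTowers s N h F)
    (hN : 8 * (ρ * r * ((n + 1) * ((h + 1) * (2 * s + 1) ^ 5))) ≤ N) {L : Type} [Field L]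
    [Algebra k L] {w : ℕ} {z : Fin (M + 1) → L} (hw : 1 ≤ w) (hz : SubVar Φ L w z)
    (hl : Lift F Q G r z) {L0 : Type} [Field L0] [Algebra k L0] [Algebra L0 L]
    [IsScalarTower k L0 L] [FiniteDimensional L0 L] (hρ : Module.finrank L0 L ≤ ρ)
    (hgt : ¬ GeneralType k L0 w) {H : MvPolynomial (Fin (M + 1)) k}
    (hHf : IsForm H) (hGm : VanGm Φ H) : val z H = 0 := by
  obtain ⟨E, i1, i2, i3, i4, i5, u, c, hrk, hu, hc0, hcz⟩ := hl
  obtain ⟨e, hGe⟩ := hG.form
  have htr : Algebra.trdeg k E = w := by rw [trdeg_alg (E := L), hz.dim]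
  -- the coordinates of `z` are rational functions of the coordinates of `u`
  have hsub : ∀ x : L, algebraMap L E x ∈ coords k u := by
    obtain ⟨i0, hi0'⟩ := Function.ne_iff.1 hu.1
    have hi0 : u i0 ≠ 0 := hi0'
    have hval : ∀ p : MvPolynomial (Fin (n + 1)) k, val (fun i => u i / u i0) p ∈ coords k u := by
      intro p
      have h1 : ∀ i, u i / u i0 ∈ coords k u := fun i =>
        IntermediateField.subset_adjoin k _ ⟨i, i0, hi0, rfl⟩
      have h2 := val_map (coords k u).val p fun i => (⟨u i / u i0, h1 i⟩ : coords k u)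
      have h3 : (fun i => (coords k u).val (⟨u i / u i0, h1 i⟩ : coords k u)) =
          fun i => u i / u i0 := rfl
      rw [h3] at h2
      rw [← h2]
      exact Subtype.property _
    have hGu : ∀ a, im G u a = u i0 ^ e * val (fun i => u i / u i0) (G a) := by
      intro a
      rw [← val_smul (hGe a)]
      congr 1
      funext i
      field_simp
    intro x
    have hx : x ∈ coords k z := by rw [hz.gen]; trivial
    have hxE : algebraMap L E x ∈ (coords k z).map (IsScalarTower.toAlgHom k L E) := ⟨x, hx, rfl⟩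
    have hle : (coords k z).map (IsScalarTower.toAlgHom k L E) ≤ coords k u := by
      unfold coords
      rw [IntermediateField.adjoin_map, IntermediateField.adjoin_le_iff]
      rintro _ ⟨_, ⟨a, b, hb, rfl⟩, rfl⟩
      have hb' : algebraMap L E (z b) ≠ 0 := (map_ne_zero _).2 hb
      change algebraMap L E (z a / z b) ∈ coords k u
      rw [map_div₀, hcz, hcz, hGu, hGu]
      have h5 : c * (u i0 ^ e * val (fun i => u i / u i0) (G a)) /
          (c * (u i0 ^ e * val (fun i => u i / u i0) (G b))) =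
          val (fun i => u i / u i0) (G a) / val (fun i => u i / u i0) (G b) := by
        rw [mul_div_mul_left _ _ hc0, mul_div_mul_left _ _ (pow_ne_zero _ hi0)]
      rw [h5]
      exact div_mem (hval _) (hval _)
    exact hle hxE
  have halg : Algebra.IsAlgebraic (coords k u) E := by
    let φ : L →+* coords k u := (algebraMap L E).codRestrict (coords k u).toSubring hsub
    refine ⟨fun x => ?_⟩
    obtain ⟨p, hp, hpx⟩ := (Algebra.IsAlgebraic.isAlgebraic (R := L) x)
    refine ⟨p.map φ, ?_, ?_⟩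
    · rw [Ne, Polynomial.map_eq_zero]
      exact hp
    · rw [Polynomial.aeval_def, Polynomial.eval₂_map]
      exact hpx
  have hwn : w ≤ n := Pool.Agent.W602.GT.dim_le hu.1 halg htr
  let iA : Algebra L0 E := ((algebraMap L E).comp (algebraMap L0 L)).toAlgebra
  have iT1 : IsScalarTower L0 L E := IsScalarTower.of_algebraMap_eq fun _ => rfl
  have iT2 : IsScalarTower k L0 E := IsScalarTower.of_algebraMap_eq fun c => by
    change _ = algebraMap L E (algebraMap L0 L (algebraMap k L0 c))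
    rw [← IsScalarTower.algebraMap_apply k L0 L, ← IsScalarTower.algebraMap_apply k L E]
  have iF : FiniteDimensional L0 E := FiniteDimensional.trans L0 L E
  have hfr : Module.finrank L0 E ≤ ρ * r := by
    rw [← Module.finrank_mul_finrank L0 L E]
    exact Nat.mul_le_mul hρ hrk
  have hr1 : 1 ≤ ρ * r := one_le_rank (L := L0) (K' := E) hfr
  obtain ⟨hb1, hb2⟩ := bound_le hr1 hwn hN
  have hC : ¬ HasNest k s h N w E := by
    intro hC
    exact hgt (general_below' hw hfr hC hb1)
  exact mv_van hΦ hG hfib hu hcz (fun H' hH' hGm' =>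
    van_nest hF hb2 htr halg hu.2.1 hC hH' hGm') hHf hGm

end one

variable {k : Type} [Field k] [IsAlgClosed k] [CharZero k] {M : ℕ} {μ : Type}
  {α : Type} [Finite α] {n : α → ℕ} {ι : α → Type}
  {F : ∀ a, ι a → MvPolynomial (Fin (n a + 1)) k} {Q : ∀ a, MvPolynomial (Fin (n a + 1)) k}
  {Φ : μ → MvPolynomial (Fin (M + 1)) k}
  {G : ∀ a, Fin (M + 1) → MvPolynomial (Fin (n a + 1)) k} {r s N h : α → ℕ}
  {T : Set (MvPolynomial (Fin (M + 1)) k)}

/-- **Dominated varieties.** -/
theorem gen_rho (hΦ : ∀ e, IsForm (Φ e)) (hcov : Covers F Q Φ G T)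
    (hG : ∀ a, MapOn (F a) (Q a) Φ (G a)) (hfib : ∀ a, FibLe (F a) (Q a) (G a) (r a))
    (hF : ∀ a, HighTowers (s a) (N a) (h a) (F a)) {ρ : ℕ}
    (hN : ∀ a, 8 * (ρ * r a * ((n a + 1) * ((h a + 1) * (2 * s a + 1) ^ 5))) ≤ N a)
    (hT : ∀ H ∈ T, IsForm H)
    (hGm : ∀ P, GmCurve Φ P → ∀ t : k, t ≠ 0 → ∀ H ∈ T, val (fun i => (P i).eval t) H = 0)
    {L : Type} [Field L] [Algebra k L] {w : ℕ} {z : Fin (M + 1) → L} (hw : 1 ≤ w)
    (hz : SubVar Φ L w z) (hzT : ∃ H ∈ T, val z H ≠ 0) {L0 : Type} [Field L0] [Algebra k L0]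
    [Algebra L0 L] [IsScalarTower k L0 L] [FiniteDimensional L0 L]
    (hρ : Module.finrank L0 L ≤ ρ) : GeneralType k L0 w := by
  by_contra hgt
  obtain ⟨H, hH, hHz⟩ := hzT
  obtain ⟨a, hl⟩ := lift_all hcov hG (fun a => (hF a).form) hfib hz.ne hz.mem ⟨H, hH, hHz⟩
  exact hHz (sub_van_rho hΦ (hG a) (hfib a) (hF a) (hN a) hw hz hl hρ hgt (hT H hH)
    fun P hP t ht => hGm P hP t ht H hH)

end Pool.Agent.X333.PW
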