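import Pool.Agent.X333.PW.Ana
import Pool.Agent.X333.PW.Rho
import Pool.Agent.X333.DC.Ena
import Pool.Agent.Y221.FQ.Tor

/-!
Entire curves in the varieties dominated, with bounded degree, by the subvarieties of unions of
images.
-/

set_option autoImplicit false
set_option maxHeartbeats 400000
set_option linter.overlappingInstances false
set_option linter.unusedSectionVars false

open FF Pool.Agent.W603.LV

namespace Pool.Agent.X333.PW

open Pool.Agent.W602.GT Pool.Agent.TH466.QG Pool.Agent.Y221.BD Pool.Agent.Y221.AH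
  Pool.Agent.TH710.ND Pool.Agent.X333.DN Pool.Agent.Y221.FQ Pool.Agent.X333.DC
open Pool.Agent.Y221.AB (NB)

/-- linear motions -/
theorem lnMv_of_lin {k : Type} [Field k] {n : ℕ} {ι : Type}
    {F : ι → MvPolynomial (Fin (n + 1)) k} {K : Type} [Field K] [Algebra k K]
    {y : Fin (n + 1) → K} (h : LinMv F y) : LnMv F y := by
  obtain ⟨i0, j0, v, Z, Q, hi0, hv0, hj0, hZ, hzZ, hQ, hzQ, hx⟩ := h
  refine ⟨v, ⟨i0, j0, ?_⟩, fun c c' i => ?_⟩
  · rw [hv0, mul_zero, sub_zero]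
    exact mul_ne_zero hi0 hj0
  · refine hx K _ (fun l hl => ?_) (fun p hp => ?_) i
    · rw [lin_add_smul, hZ l hl, hzZ l hl, mul_zero, mul_zero, add_zero]
    · rw [lin_add_smul, lin_add_smul, hzQ p hp]
      have h2 := (hQ p hp).2
      simp only [Algebra.algebraMap_self, RingHom.id_apply]
      field_simp

section one

variable {n M : ℕ} {ι μ : Type}
  {F : ι → MvPolynomial (Fin (n + 1)) ℂ} {Q : MvPolynomial (Fin (n + 1)) ℂ}
  {Φ : μ → MvPolynomial (Fin (M + 1)) ℂ} {G : Fin (M + 1) → MvPolynomial (Fin (n + 1)) ℂ}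

/-- **Entire curves in dominated varieties.** -/
theorem brody_pw [Finite ι] (hΦ : ∀ e, IsForm (Φ e)) (hG : MapOn F Q Φ G) {r s N h ρ : ℕ}
    (hfib : FibLe F Q G r) (hF : HighTowers s N h F) (hN : NB (ρ * r) (2 * s) ≤ N)
    {L : Type} [Field L] [Algebra ℂ L] {w : ℕ} {z : Fin (M + 1) → L} (hz : SubVar Φ L w z)
    (hl : Lift F Q G r z) {H : MvPolynomial (Fin (M + 1)) ℂ} (hHf : IsForm H)
    (hGm : VanGm Φ H) (hHz : val z H ≠ 0) {L0 : Type} [Field L0] [Algebra ℂ L0] [Algebra L0 L]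
    [IsScalarTower ℂ L0 L] [FiniteDimensional L0 L] (hρ : Module.finrank L0 L ≤ ρ) {M' : ℕ}
    {x : Fin (M' + 1) → L0} (hx : x ≠ 0) (hgen : coords ℂ x = ⊤) : PseudoBrody x := by
  obtain ⟨E, i1, i2, i3, i4, i5, u, c, hrk, hu, hc0, hcz⟩ := hl
  obtain ⟨e, hGe⟩ := hG.form
  -- the coordinates of `z` are rational functions of the coordinates of `u`
  have hsub : ∀ x : L, algebraMap L E x ∈ coords ℂ u := by
    obtain ⟨i0, hi0'⟩ := Function.ne_iff.1 hu.1
    have hi0 : u i0 ≠ 0 := hi0'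
    have hval : ∀ p : MvPolynomial (Fin (n + 1)) ℂ, val (fun i => u i / u i0) p ∈ coords ℂ u := by
      intro p
      have h1 : ∀ i, u i / u i0 ∈ coords ℂ u := fun i =>
        IntermediateField.subset_adjoin ℂ _ ⟨i, i0, hi0, rfl⟩
      have h2 := val_map (coords ℂ u).val p fun i => (⟨u i / u i0, h1 i⟩ : coords ℂ u)
      have h3 : (fun i => (coords ℂ u).val (⟨u i / u i0, h1 i⟩ : coords ℂ u)) =
          fun i => u i / u i0 := rfl
      rw [h3] at h2
      rw [← h2]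
      exact Subtype.property _
    have hGu : ∀ a, im G u a = u i0 ^ e * val (fun i => u i / u i0) (G a) := by
      intro a
      rw [← val_smul (hGe a)]
      congr 1
      funext i
      field_simp
    intro x
    have hx : x ∈ coords ℂ z := by rw [hz.gen]; trivial
    have hxE : algebraMap L E x ∈ (coords ℂ z).map (IsScalarTower.toAlgHom ℂ L E) := ⟨x, hx, rfl⟩
    have hle : (coords ℂ z).map (IsScalarTower.toAlgHom ℂ L E) ≤ coords ℂ u := by
      unfold coords
      rw [IntermediateField.adjoin_map, IntermediateField.adjoin_le_iff]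
      rintro _ ⟨_, ⟨a, b, hb, rfl⟩, rfl⟩
      have hb' : algebraMap L E (z b) ≠ 0 := (map_ne_zero _).2 hb
      change algebraMap L E (z a / z b) ∈ coords ℂ u
      rw [map_div₀, hcz, hcz, hGu, hGu]
      have h5 : c * (u i0 ^ e * val (fun i => u i / u i0) (G a)) /
          (c * (u i0 ^ e * val (fun i => u i / u i0) (G b))) =
          val (fun i => u i / u i0) (G a) / val (fun i => u i / u i0) (G b) := by
        rw [mul_div_mul_left _ _ hc0, mul_div_mul_left _ _ (pow_ne_zero _ hi0)]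
      rw [h5]
      exact div_mem (hval _) (hval _)
    exact hle hxE
  have halg : Algebra.IsAlgebraic (coords ℂ u) E := by
    let φ : L →+* coords ℂ u := (algebraMap L E).codRestrict (coords ℂ u).toSubring hsub
    refine ⟨fun x => ?_⟩
    obtain ⟨p, hp, hpx⟩ := (Algebra.IsAlgebraic.isAlgebraic (R := L) x)
    refine ⟨p.map φ, ?_, ?_⟩
    · rw [Ne, Polynomial.map_eq_zero]
      exact hp
    · rw [Polynomial.aeval_def, Polynomial.eval₂_map]
      exact hpx
  obtain ⟨i0, hi0'⟩ := Function.ne_iff.1 hu.1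
  have hi0 : u i0 ≠ 0 := hi0'
  let iA : Algebra L0 E := ((algebraMap L E).comp (algebraMap L0 L)).toAlgebra
  have iT1 : IsScalarTower L0 L E := IsScalarTower.of_algebraMap_eq fun _ => rfl
  have iT2 : IsScalarTower ℂ L0 E := IsScalarTower.of_algebraMap_eq fun c => by
    change _ = algebraMap L E (algebraMap L0 L (algebraMap ℂ L0 c))
    rw [← IsScalarTower.algebraMap_apply ℂ L0 L, ← IsScalarTower.algebraMap_apply ℂ L E]
  have iF : FiniteDimensional L0 E := FiniteDimensional.trans L0 L E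
  have hfr : Module.finrank L0 E ≤ ρ * r := by
    rw [← Module.finrank_mul_finrank L0 L E]
    exact Nat.mul_le_mul hρ hrk
  obtain ⟨y, hy0, hyF, hygen, hback⟩ := repr (fun e => hF.form e) u hi0 hu.2.1
  obtain ⟨h1, h2⟩ := vanGm_push hΦ hG hfib hHf hGm
  have hne : val u (MvPolynomial.aeval G H * Q) ≠ 0 := by
    have hmul : val u (MvPolynomial.aeval G H * Q) =
        val u (MvPolynomial.aeval G H) * val u Q := map_mul _ _ _
    rw [hmul]
    refine mul_ne_zero (fun h0 => hHz (val_prop hcz hHf ?_)) hu.2.2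
    rw [val_im]
    exact h0
  have hne' : val y (MvPolynomial.aeval G H * Q) ≠ 0 := fun h0 => hne (hback _ h1 h0)
  have hyi0 : y i0 ≠ 0 := by
    rw [hy0]
    exact one_ne_zero
  refine brody_gen (K := coords ℂ u) (K' := E) hygen hyi0
    (keyE_high hN hF hyF hyi0 (fun hL => ?_) fun hW => ?_) hfr hx hgen
  · obtain ⟨v, hv, hl⟩ := lnMv_of_lin hL
    exact hne' (van_line hv hl h1 h2)
  · exact hne' (van_wt (fun e => hF.form e) hW h2)

end one

variable {M : ℕ} {μ : Type}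
  {α : Type} [Finite α] {n : α → ℕ} {ι : α → Type}
  {F : ∀ a, ι a → MvPolynomial (Fin (n a + 1)) ℂ} {Q : ∀ a, MvPolynomial (Fin (n a + 1)) ℂ}
  {Φ : μ → MvPolynomial (Fin (M + 1)) ℂ}
  {G : ∀ a, Fin (M + 1) → MvPolynomial (Fin (n a + 1)) ℂ} {r s N h : α → ℕ}
  {T : Set (MvPolynomial (Fin (M + 1)) ℂ)}

/-- **Dominated varieties.** -/
theorem dom_pw [∀ a, Finite (ι a)] (hΦ : ∀ e, IsForm (Φ e)) (hcov : Covers F Q Φ G T)
    (hG : ∀ a, MapOn (F a) (Q a) Φ (G a)) (hfib : ∀ a, FibLe (F a) (Q a) (G a) (r a))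
    (hF : ∀ a, HighTowers (s a) (N a) (h a) (F a)) {ρ : ℕ}
    (hN : ∀ a, (n a + 1) * ((h a + 1) * (4 * 10 ^ (2 * s a) * (ρ * r a + 1) ^ 7)) ≤ N a)
    (hT : ∀ H ∈ T, IsForm H)
    (hGm : ∀ P, GmCurve Φ P → ∀ t : ℂ, t ≠ 0 → ∀ H ∈ T, val (fun i => (P i).eval t) H = 0)
    {L : Type} [Field L] [Algebra ℂ L] {w : ℕ} {z : Fin (M + 1) → L} (hw : 1 ≤ w)
    (hz : SubVar Φ L w z) (hzT : ∃ H ∈ T, val z H ≠ 0) {L0 : Type} [Field L0] [Algebra ℂ L0]
    [Algebra L0 L] [IsScalarTower ℂ L0 L] [FiniteDimensional L0 L]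
    (hρ : Module.finrank L0 L ≤ ρ) {M' : ℕ}
    {x : Fin (M' + 1) → L0} (hx : x ≠ 0) (hgen : coords ℂ x = ⊤) :
    GeneralType ℂ L0 w ∧ PseudoBrody x := by
  refine ⟨gen_rho hΦ hcov hG hfib hF (fun a => bound_alg (hN a)) hT hGm hw hz hzT hρ, ?_⟩
  obtain ⟨H, hH, hHz⟩ := hzT
  obtain ⟨a, hl⟩ := lift_all hcov hG (fun a => (hF a).form) hfib hz.ne hz.mem ⟨H, hH, hHz⟩
  exact brody_pw hΦ (hG a) (hfib a) (hF a) (nb_le (hN a)) hz hl (hT H hH)
    (fun P hP t ht => hGm P hP t ht H hH) hHz hρ hx hgen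

end Pool.Agent.X333.PW
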