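import Pool.Agent.X333.PW.Nst

/-!
Degrees of curves in unions of images.
-/

set_option autoImplicit false
set_option maxHeartbeats 400000
set_option linter.overlappingInstances false
set_option linter.unusedSectionVars false

open FF Pool.Agent.W603.LV

namespace Pool.Agent.X333.PW

open Pool.Agent.W602.GT Pool.Agent.TH466.QG Pool.Agent.Y221.BD Pool.Agent.Y221.AH
  Pool.Agent.TH710.ND Pool.Agent.X333.DN Pool.Agent.Y221.FQ Pool.Agent.X333.DC
open Pool.Agent.W603.PV Pool.Agent.W603.CX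

variable {k : Type} [Field k] [IsAlgClosed k] [CharZero k] {n M : ℕ} {ι μ : Type}

/-- heights of images -/
theorem pht_im_le {G : Fin (M + 1) → MvPolynomial (Fin (n + 1)) k} {e : ℕ}
    (hG : ∀ j, (G j).IsHomogeneous e) {E : Type} [Field E] [Algebra k E] [IsFF k E]
    {u : Fin (n + 1) → E} (hu : ∃ j, u j ≠ 0) (hGu : ∃ j, im G u j ≠ 0) :
    pht k (im G u) ≤ e * pht k u := by
  classical
  obtain ⟨T1, hT1⟩ := exists_supp (k := k) Finset.univ u
  obtain ⟨T2, hT2⟩ := exists_supp (k := k) Finset.univ (im G u)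
  rw [pht_sum hu (T1 ∪ T2) fun j P hP => Finset.mem_union_left _ (hT1 j (Finset.mem_univ j) P hP),
    pht_sum hGu (T1 ∪ T2) fun j P hP =>
      Finset.mem_union_right _ (hT2 j (Finset.mem_univ j) P hP), Finset.mul_sum]
  refine Finset.sum_le_sum fun P _ => ?_
  have h1 : e * pord P u ≤ pord P (im G u) := by
    rw [Pool.Agent.Y221.AH.pord_le_iff P hGu]
    intro j
    exact ge_form P u (hG j) fun α _ => Ge.const _
  linarith

variable {α : Type} [Finite α] {n : α → ℕ} {ι : α → Type}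
    {F : ∀ a, ι a → MvPolynomial (Fin (n a + 1)) k} {Q : ∀ a, MvPolynomial (Fin (n a + 1)) k}
    {Φ : μ → MvPolynomial (Fin (M + 1)) k}
    {G : ∀ a, Fin (M + 1) → MvPolynomial (Fin (n a + 1)) k} {r s N h : α → ℕ}
    {T : Set (MvPolynomial (Fin (M + 1)) k)}

/-- **Degrees.** -/
theorem deg_pw [∀ a, Finite (ι a)] (hΦ : ∀ e, IsForm (Φ e)) (hcov : Covers F Q Φ G T)
    (hG : ∀ a, MapOn (F a) (Q a) Φ (G a)) (hfib : ∀ a, FibLe (F a) (Q a) (G a) (r a))
    (hF : ∀ a, HighTowers (s a) (N a) (h a) (F a)) {ρ : ℕ}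
    (hN2 : ∀ a, 2 ≤ N a) (hN : ∀ a, 8 * (ρ * r a * ((h a + 1) * (2 * s a * (2 * s a)) *
      ((2 * s a + 1) * tn (2 * s a - 1)))) ≤ N a) (hT : ∀ H ∈ T, IsForm H ∧ VanGm Φ H) :
    ∃ A : ℕ, HypMod ρ A Φ T := by
  have h0 := fun a => high_dich (r := ρ * r a) (hN2 a) (hN a) (hF a)
  choose A hA using h0
  choose e hGe using fun a => (hG a).form
  obtain ⟨B, hB⟩ : ∃ B : ℕ, ∀ a, e a * A a ≤ B := by
    obtain ⟨B, hB⟩ := (Set.finite_range fun a => e a * A a).bddAbove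
    exact ⟨B, fun a => hB ⟨a, rfl⟩⟩
  refine ⟨B, ?_⟩
  intro K0 K _ _ _ _ _ _ _ _ _ hρ f hf0 hf hno
  have hf0' : f ≠ 0 := by
    rintro rfl
    obtain ⟨j, hj⟩ := hf0
    exact hj rfl
  obtain ⟨a, E, i1, i2, i3, i4, i5, u, c, hrk, hu, hc0, hcz⟩ :=
    lift_all hcov hG (fun a => (hF a).form) hfib hf0' hf hno
  have hff : IsFF k E := isFF_of_finite (F := K)
  have huex : ∃ j, u j ≠ 0 := Function.ne_iff.1 hu.1
  let iA : Algebra K0 E := ((algebraMap K E).comp (algebraMap K0 K)).toAlgebra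
  have iT1 : IsScalarTower K0 K E := IsScalarTower.of_algebraMap_eq fun _ => rfl
  have iT2 : IsScalarTower k K0 E := IsScalarTower.of_algebraMap_eq fun c => by
    change _ = algebraMap K E (algebraMap K0 K (algebraMap k K0 c))
    rw [← IsScalarTower.algebraMap_apply k K0 K, ← IsScalarTower.algebraMap_apply k K E]
  have iF : FiniteDimensional K0 E := FiniteDimensional.trans K0 K E
  have hfr : Module.finrank K0 E ≤ ρ * r a := by
    rw [← Module.finrank_mul_finrank K0 K E]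
    exact Nat.mul_le_mul hρ hrk
  have hmv : ¬ Mvs (F a) u := by
    intro hmv
    obtain ⟨H, hH, hHf⟩ := hno
    exact hHf (mv_van hΦ (hG a) (hfib a) hu hcz (fun H' hH' hGm' =>
      hmv.van (fun e => (hF a).form e) hH' hGm') (hT H hH).1 (hT H hH).2)
  have h2 := hA a K0 E hfr u huex hu.2.1 hmv
  have hGu := (hG a).mem hu
  have h3 : pht k (fun j => algebraMap K E (f j)) ≤ e a * pht k u := by
    have h4 : (fun j => algebraMap K E (f j)) = fun j => c * im (G a) u j := funext hcz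
    rw [h4, pht_scale (Function.ne_iff.1 hGu.1) hc0]
    exact pht_im_le (hGe a) huex (Function.ne_iff.1 hGu.1)
  rw [pht_algebraMap hf0] at h3
  have h5 : 0 ≤ pht k f := pht_nonneg hf0
  have h6 : (1 : ℤ) ≤ Module.finrank K E := by exact_mod_cast Module.finrank_pos
  have h8 : (0 : ℤ) ≤ e a := by positivity
  have h9 : pht k f ≤ Module.finrank K E * pht k f := by nlinarith
  have h11 := mul_le_mul_of_nonneg_left h2 h8
  have h12 : (e a : ℤ) * (A a * max (canDeg k K0) 0) ≤ B * max (canDeg k K0) 0 := by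
    rw [← mul_assoc]
    refine mul_le_mul_of_nonneg_right ?_ (le_max_right _ _)
    exact_mod_cast hB a
  linarith

/-- **Subvarieties.** -/
theorem gen_pw (hΦ : ∀ e, IsForm (Φ e)) (hcov : Covers F Q Φ G T)
    (hG : ∀ a, MapOn (F a) (Q a) Φ (G a)) (hfib : ∀ a, FibLe (F a) (Q a) (G a) (r a))
    (hF : ∀ a, HighTowers (s a) (N a) (h a) (F a))
    (hN : ∀ a, 8 * (r a * ((n a + 1) * ((h a + 1) * (2 * s a + 1) ^ 5))) ≤ N a)
    (hT : ∀ H ∈ T, IsForm H ∧ VanGm Φ H) : GenMod Φ T := by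
  rintro L _ _ w z hw hz ⟨H, hH, hHz⟩
  by_contra hgt
  obtain ⟨a, hl⟩ := lift_all hcov hG (fun a => (hF a).form) hfib hz.ne hz.mem ⟨H, hH, hHz⟩
  exact hHz (sub_van_pw hΦ (hG a) (hfib a) (hF a) (hN a) hw hz hl hgt (hT H hH).1 (hT H hH).2)

/-- **The notions of hyperbolicity modulo a closed subset.** -/
theorem mod_pw [∀ a, Finite (ι a)] (hΦ : ∀ e, IsForm (Φ e)) (hcov : Covers F Q Φ G T)
    (hG : ∀ a, MapOn (F a) (Q a) Φ (G a)) (hfib : ∀ a, FibLe (F a) (Q a) (G a) (r a))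
    (hF : ∀ a, HighTowers (s a) (N a) (h a) (F a)) {ρ : ℕ} (hr : ∀ a, 1 ≤ r a) (hρ : 1 ≤ ρ)
    (hN : ∀ a, 8 * (ρ * r a * ((n a + 1) * ((h a + 1) * (2 * s a + 1) ^ 5))) ≤ N a)
    (hT : ∀ H ∈ T, IsForm H) :
    [∃ A : ℕ, HypMod 1 A Φ T, ∃ A : ℕ, HypMod ρ A Φ T, BddMod Φ T,
      ∀ P, GmCurve Φ P → ∀ t : k, t ≠ 0 → ∀ H ∈ T, val (fun i => (P i).eval t) H = 0,
      GenMod Φ T].TFAE := by
  have hb := fun a => bound_img (hr a) hρ (hN a)
  tfae_have 2 → 1 := fun ⟨A, h⟩ => ⟨A, fun K E _ _ _ _ _ _ _ _ _ hr' =>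
    h K E (hr'.trans hρ)⟩
  tfae_have 1 → 3 := by
    rintro ⟨A, h⟩ K _ _ _
    exact ⟨_, fun f hf0 hf hH => h K K (by rw [Module.finrank_self]) f hf0 hf hH⟩
  tfae_have 3 → 4 := by
    intro h P hP t _ H hH
    by_contra hne
    obtain ⟨D, hD⟩ := h (RatFunc k)
    exact not_bounded' hP hne ⟨D, fun f h1 h2 h3 => hD f h1 h2 ⟨H, hH, h3⟩⟩
  tfae_have 4 → 2 := fun h => deg_pw hΦ hcov hG hfib hF (fun a => (hb a).2.1)
    (fun a => (hb a).1) fun H hH => ⟨hT H hH, fun P hP t ht => h P hP t ht H hH⟩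
  tfae_have 4 → 5 := fun h => gen_pw hΦ hcov hG hfib hF (fun a => (hb a).2.2)
    fun H hH => ⟨hT H hH, fun P hP t ht => h P hP t ht H hH⟩
  tfae_have 5 → 4 := by
    intro h P hP t ht H hH
    have h1 : (fun i => (P i).eval t) ∈ SpGm Φ :=
      ⟨⟨hP.ne t ht, hP.mem t ht⟩, fun H' _ hH' => hH' P hP t ht⟩
    refine (gm_sub_alg hΦ h1).2 H (hT H hH) fun K _ _ w y hw hy hgt => ?_
    by_contra hne
    exact hgt (h K w y hw hy ⟨H, hH, hne⟩)
  tfae_finish

end Pool.Agent.X333.PW
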