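import Pool.Agent.X333.PW.Clo
import Pool.Agent.X316.ZU.Main

/-!
Zariski dense entire curves in projective varieties which are unions of images of quasi-projective
varieties given by nested sums of high powers, and unirationality.
-/

set_option autoImplicit false
set_option maxHeartbeats 400000
set_option linter.overlappingInstances false
set_option linter.unusedSectionVars false

open MvPolynomial

namespace Pool.Agent.X333.PW

open Pool.Agent.W602.GT Pool.Agent.TH710.ND Pool.Agent.Y221.FQ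
open Pool.Agent.TH143.GT (FunField)
open Pool.Agent.TH8.UNI (Unirational)

variable {M : ℕ}

/-- All forms in the ideal `p`: the equations of the projective variety with the ideal `p`. -/
def formsOf (p : Ideal (MvPolynomial (Fin (M + 1)) ℂ)) :
    {G : MvPolynomial (Fin (M + 1)) ℂ // IsForm G ∧ G ∈ p} → MvPolynomial (Fin (M + 1)) ℂ :=
  Subtype.val

/-- common denominators -/
theorem tw_clear_fam {k : ℕ} (W : Fin (M + 1) → MvPolynomial (Fin k ⊕ Fin k) ℂ) :
    ∃ (S : ℕ) (W' : Fin (M + 1) → MvPolynomial (Fin k) ℂ), ∀ t : Fin k → ℂ, (∀ j, t j ≠ 0) →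
      ∀ l, eval t (W' l) = (∏ j, t j) ^ S * eval (tw t) (W l) := by
  classical
  choose m p hp using fun l => tw_clear (W l)
  refine ⟨∑ l, m l, fun l => p l * (∏ j, X j) ^ (∑ l, m l - m l), fun t ht l => ?_⟩
  have h1 := hp l ℂ t ht
  simp only [aeval_eq_eval] at h1
  have h2 : eval t (p l) = (∏ j, t j) ^ m l * eval (tw t) (W l) := h1
  have h3 : m l ≤ ∑ l, m l := Finset.single_le_sum (fun _ _ => Nat.zero_le _) (Finset.mem_univ l)
  rw [map_mul, map_pow, map_prod, h2]
  simp only [eval_X]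
  rw [mul_right_comm, ← pow_add, Nat.add_sub_cancel' h3]

variable {α : Type} [Finite α] {n : α → ℕ} {ι : α → Type}
    {F : ∀ a, ι a → MvPolynomial (Fin (n a + 1)) ℂ} {Q : ∀ a, MvPolynomial (Fin (n a + 1)) ℂ}
    {p : Ideal (MvPolynomial (Fin (M + 1)) ℂ)}
    {G : ∀ a, Fin (M + 1) → MvPolynomial (Fin (n a + 1)) ℂ} {r s N h : α → ℕ}
    {T : Set (MvPolynomial (Fin (M + 1)) ℂ)}

/-- **Unirationality.** -/
theorem unir_pw {L : Type} [Field L] [Algebra ℂ L] {w : ℕ} {y : Fin (M + 1) → L}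
    (hy : FunField p 1 L w y) (hcov : Covers F Q (formsOf p) G T)
    (hG : ∀ a, MapOn (F a) (Q a) (formsOf p) (G a))
    (hfib : ∀ a, FibLe (F a) (Q a) (G a) (r a)) (hF : ∀ a, HighTowers (s a) (N a) (h a) (F a))
    (hN : ∀ a, (n a + 1) * ((h a + 1) * (4 * 10 ^ (2 * s a) * (r a + 1) ^ 7)) ≤ N a)
    (hT : ∃ H ∈ T, IsForm H ∧ H ∉ p) {f : ℂ → Fin (M + 1) → ℂ} (hf : Entire (formsOf p) f)
    (hd : ∀ H, IsForm H → (∀ t, val (f t) H = 0) → H ∈ p) : Unirational L := by
  classical
  obtain ⟨H0, hH0, hH0f, hH0p⟩ := hT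
  have hne : ∃ t, ∃ H ∈ T, val (f t) H ≠ 0 := by
    by_contra hcon
    push Not at hcon
    exact hH0p (hd H0 hH0f fun t => hcon t H0 hH0)
  obtain ⟨k, W, hW1, hW2⟩ := closure_pw hcov hG hfib hF hN hf hne
  obtain ⟨S, W', hW'⟩ := tw_clear_fam W
  have hev : ∀ (P : MvPolynomial (Fin (M + 1)) ℂ) (d : ℕ), P.IsHomogeneous d →
      ∀ t : Fin k → ℂ, (∀ j, t j ≠ 0) → eval t (aeval W' P) =
        ((∏ j, t j) ^ S) ^ d * eval (fun l => eval (tw t) (W l)) P := by
    intro P d hP t ht
    have h1 := MvPolynomial.comp_aeval_apply (f := W')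
      (aeval t : MvPolynomial (Fin k) ℂ →ₐ[ℂ] ℂ) P
    rw [aeval_eq_eval, aeval_eq_eval] at h1
    have h2 : eval t (aeval W' P) = eval (fun l => eval t (W' l)) P := h1
    rw [h2]
    have h3 : (fun l => eval t (W' l)) = fun l => (∏ j, t j) ^ S * eval (tw t) (W l) :=
      funext fun l => hW' t ht l
    rw [h3]
    have h4 := val_smul hP ((∏ j, t j) ^ S) (fun l => eval (tw t) (W l))
    unfold Pool.Agent.W602.GT.val at h4
    rw [aeval_eq_eval, aeval_eq_eval] at h4
    exact h4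
  refine Pool.Agent.X316.ZU.embed_of_param hy W' fun P hP => ?_
  obtain ⟨d, hPd⟩ := hP
  constructor
  · intro h0
    have hPp : P ∈ p := hy.mem P ⟨d, hPd⟩ h0
    have h1 : aeval W' P * ∏ j, (X j : MvPolynomial (Fin k) ℂ) = 0 := by
      refine MvPolynomial.funext fun t => ?_
      rw [map_mul, map_zero, map_prod]
      simp only [eval_X]
      by_cases ht : ∀ j, t j ≠ 0
      · rw [hev P d hPd t ht]
        have h2 := hW1 t ht ⟨P, ⟨d, hPd⟩, hPp⟩
        change eval (fun l => eval (tw t) (W l)) P = 0 at h2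
        rw [h2, mul_zero, zero_mul]
      · push Not at ht
        obtain ⟨j, hj⟩ := ht
        rw [Finset.prod_eq_zero (Finset.mem_univ j) hj, mul_zero]
    exact (mul_eq_zero.1 h1).resolve_right
      (Finset.prod_ne_zero_iff.2 fun j _ => X_ne_zero j)
  · intro h0
    refine hy.sub.mem P (hd P ⟨d, hPd⟩ (hW2 P ⟨d, hPd⟩ fun t ht => ?_))
    have h1 := hev P d hPd t ht
    rw [h0, map_zero] at h1
    exact (mul_eq_zero.1 h1.symm).resolve_left
      (pow_ne_zero _ (pow_ne_zero _ (Finset.prod_ne_zero_iff.2 fun j _ => ht j)))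

end Pool.Agent.X333.PW
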