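import Pool.Agent.X333.PW.Hgt
import Pool.Agent.X333.DN.ImT
import Pool.Agent.Y221.FQ.Ell

/-!
Entire curves in projective varieties which are unions of images of open subsets of nested sums of
high powers.
-/

set_option autoImplicit false
set_option maxHeartbeats 400000
set_option linter.overlappingInstances false
set_option linter.unusedSectionVars false

open FF IntermediateField Pool.Agent.W603.LV Filter

namespace Pool.Agent.X333.PW

open Pool.Agent.W602.GT Pool.Agent.TH466.QG Pool.Agent.TH710.ND Pool.Agent.Y221.FQ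
open Pool.Agent.Y221.AB Pool.Agent.TH143.EL Pool.Agent.Y221.BD Pool.Agent.X333.DN

variable {n M : ℕ} {ι μ : Type}
  {F : ι → MvPolynomial (Fin (n + 1)) ℂ} {Q : MvPolynomial (Fin (n + 1)) ℂ}
  {Φ : μ → MvPolynomial (Fin (M + 1)) ℂ} {G : Fin (M + 1) → MvPolynomial (Fin (n + 1)) ℂ}

/-- **Entire curves.** -/
theorem entire_pw (hΦ : ∀ e, IsForm (Φ e)) {f : ℂ → Fin (M + 1) → ℂ} (hf : Entire Φ f)
    {H : MvPolynomial (Fin (M + 1)) ℂ} (hHf : IsForm H) (hGm : VanGm Φ H)
    (hall : ∀ z : Fin (M + 1) → MK, z ≠ 0 → (∀ e, val z (Φ e) = 0) → val z H ≠ 0 →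
      ∃ (n : ℕ) (ι : Type) (F : ι → MvPolynomial (Fin (n + 1)) ℂ)
        (Q : MvPolynomial (Fin (n + 1)) ℂ) (G : Fin (M + 1) → MvPolynomial (Fin (n + 1)) ℂ)
        (r s N h : ℕ), HighTowers s N h F ∧ NB r (2 * s) ≤ N ∧ MapOn F Q Φ G ∧ FibLe F Q G r ∧
          Lift F Q G r z) (t : ℂ) : val (f t) H = 0 := by
  classical
  obtain ⟨f', hf'⟩ : ∃ f' : Fin (M + 1) → ℂ → ℂ, ∀ i t, f' i t = f t i := ⟨_, fun _ _ => rfl⟩
  have hff : ∀ t, (fun i => f' i t) = f t := fun t => funext fun i => hf' i t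
  have hhol : ∀ i, Differentiable ℂ (f' i) := by
    intro i
    have : f' i = fun t => f t i := funext (hf' i)
    rw [this]
    exact hf.hol i
  have hmer : ∀ i, Meromorphic (f' i) := fun i t =>
    ((hhol i).analyticAt t).meromorphicAt
  obtain ⟨z, hzdef⟩ : ∃ z : Fin (M + 1) → MK, z = fun i => cl (f' i) (hmer i) := ⟨_, rfl⟩
  have hcont : ∀ T : MvPolynomial (Fin (M + 1)) ℂ,
      Continuous fun t => MvPolynomial.eval (fun i => f' i t) T := fun T =>
    (MvPolynomial.continuous_eval T).comp (continuous_pi fun i => (hhol i).continuous)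
  have hvz : ∀ T : MvPolynomial (Fin (M + 1)) ℂ, val z T = 0 ↔ ∀ t, val (f t) T = 0 := by
    intro T
    rw [hzdef, val_cl hmer T, cl_eq_zero]
    have h1 : ∀ t, MvPolynomial.eval (fun i => f' i t) T = val (f t) T := by
      intro t
      rw [hff]
      unfold Pool.Agent.W602.GT.val
      rw [MvPolynomial.aeval_eq_eval]
    constructor
    · intro h t
      rw [← h1]
      exact eq_of_codis (g := fun _ => 0) h (hcont T).continuousAt continuousAt_const
    · intro h
      exact Eventually.of_forall fun t => (h1 t).trans (h t)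
  have hzj : ∀ (a : ℂ) i j, z i = algebraMap ℂ MK a * z j → ∀ t, f t i = a * f t j := by
    intro a i j h t
    have h1 := (hvz (MvPolynomial.X i - MvPolynomial.C a * MvPolynomial.X j)).1 (by
      unfold Pool.Agent.W602.GT.val
      rw [map_sub, map_mul, MvPolynomial.aeval_X, MvPolynomial.aeval_X, MvPolynomial.aeval_C, h,
        sub_self]) t
    unfold Pool.Agent.W602.GT.val at h1
    rw [map_sub, map_mul, MvPolynomial.aeval_X, MvPolynomial.aeval_X, MvPolynomial.aeval_C,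
      sub_eq_zero] at h1
    exact h1
  have hz : z ≠ 0 := by
    intro h0
    apply (hf.mem 0).1
    funext i
    have h1 := hzj 0 i i (by rw [h0]; simp) 0
    rw [h1, zero_mul]
    rfl
  have hzΦ : ∀ e, val z (Φ e) = 0 := fun e => (hvz _).2 fun t => (hf.mem t).2 e
  by_contra hft
  have hzH : val z H ≠ 0 := fun h0 => hft ((hvz H).1 h0 t)
  obtain ⟨n, ι, F, Q, G, r, s, N, h, hF, hN, hG, hfib, hl⟩ := hall z hz hzΦ hzH
  obtain ⟨E, i1, i2, i3, i4, i5, u, c, hrk, hu, hc0, hcz⟩ := hl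
  obtain ⟨e, hGe⟩ := hG.form
  obtain ⟨i0, hi0'⟩ := Function.ne_iff.1 hu.1
  have hi0 : u i0 ≠ 0 := hi0'
  -- the constant case
  have hcst : ¬ Cst i0 u := by
    intro hc
    have h1 := coords_cst hi0 hc
    have h2 : ∀ i, ∃ a : ℂ, algebraMap ℂ E a = u i / u i0 := by
      intro i
      have h3 : u i / u i0 ∈ coords ℂ u :=
        IntermediateField.subset_adjoin ℂ _ ⟨i, i0, hi0, rfl⟩
      rw [h1, IntermediateField.mem_bot] at h3
      exact h3
    choose a ha using h2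
    have h3 : ∀ j, im G u j = u i0 ^ e * algebraMap ℂ E (im G a j) := by
      intro j
      have h4 := val_map (Algebra.ofId ℂ E) (G j) a
      have h5 : (fun i => (Algebra.ofId ℂ E) (a i)) = fun i => u i / u i0 := funext ha
      rw [h5] at h4
      have h6 : im G u j = u i0 ^ e * val (fun i => u i / u i0) (G j) := by
        rw [← val_smul (hGe j)]
        congr 1
        funext i
        field_simp
      rw [h6, ← h4]
      rfl
    obtain ⟨b, hb'⟩ := Function.ne_iff.1 hz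
    have hb : z b ≠ 0 := hb'
    have hbE : algebraMap MK E (z b) ≠ 0 := by
      rw [Ne, map_eq_zero]
      exact hb
    have hub : im G a b ≠ 0 := by
      intro h0
      have h4 := hcz b
      rw [h3, h0, map_zero, mul_zero, mul_zero] at h4
      exact hbE h4
    have h4 : ∀ j, z j = algebraMap ℂ MK (im G a j / im G a b) * z b := by
      intro j
      apply (algebraMap MK E).injective
      have hub' : algebraMap ℂ E (im G a b) ≠ 0 := by
        rw [Ne, map_eq_zero]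
        exact hub
      rw [map_mul, ← IsScalarTower.algebraMap_apply ℂ MK E, hcz, hcz, h3, h3, map_div₀]
      field_simp
    obtain ⟨t1, t2, hli⟩ := hf.nonconst
    rw [LinearIndependent.pair_iff] at hli
    have h5 : ∀ t i, f t i = im G a i / im G a b * f t b := fun t i => hzj _ _ _ (h4 i) t
    have h6 := hli (f t2 b) (-(f t1 b)) (by
      funext i
      simp only [Pi.add_apply, Pi.smul_apply, smul_eq_mul, Pi.zero_apply]
      rw [h5 t1 i, h5 t2 i]
      ring)
    apply (hf.mem t2).1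
    funext i
    rw [h5 t2 i, h6.1, mul_zero]
    rfl
  have hvan : ∀ H' : MvPolynomial (Fin (n + 1)) ℂ, IsForm H' → VanGm F H' → val u H' = 0 := by
    intro H' hH' hGm
    rcases ana_nest hrk hN hF hi0 hu.2.1 with h1 | ⟨v, hv, hl⟩ | h1
    · exact absurd h1 hcst
    · exact van_line hv hl hH' hGm
    · exact van_wt hF.form h1 hGm
  exact hzH (mv_van hΦ hG hfib hu hcz hvan hHf hGm)

section family

variable {α : Type} [Finite α] {n : α → ℕ} {ι : α → Type}
    {F : ∀ a, ι a → MvPolynomial (Fin (n a + 1)) ℂ} {Q : ∀ a, MvPolynomial (Fin (n a + 1)) ℂ}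
    {Φ : μ → MvPolynomial (Fin (M + 1)) ℂ}
    {G : ∀ a, Fin (M + 1) → MvPolynomial (Fin (n a + 1)) ℂ} {r s N h : α → ℕ}
    {T : Set (MvPolynomial (Fin (M + 1)) ℂ)}

/-- **Entire curves in unions of images.** -/
theorem ent_pw (hΦ : ∀ e, IsForm (Φ e)) (hcov : Covers F Q Φ G T)
    (hG : ∀ a, MapOn (F a) (Q a) Φ (G a)) (hfib : ∀ a, FibLe (F a) (Q a) (G a) (r a))
    (hF : ∀ a, HighTowers (s a) (N a) (h a) (F a))
    (hN : ∀ a, (n a + 1) * ((h a + 1) * (4 * 10 ^ (2 * s a) * (r a + 1) ^ 7)) ≤ N a)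
    (hT : ∀ H ∈ T, IsForm H ∧ VanGm Φ H) {f : ℂ → Fin (M + 1) → ℂ} (hf : Entire Φ f) (t : ℂ)
    {H : MvPolynomial (Fin (M + 1)) ℂ} (hH : H ∈ T) : val (f t) H = 0 :=
  entire_pw hΦ hf (hT H hH).1 (hT H hH).2 (fun z hz hzΦ hzH => by
    obtain ⟨a, hl⟩ := lift_all hcov hG (fun a => (hF a).form) hfib hz hzΦ ⟨H, hH, hzH⟩
    exact ⟨n a, ι a, F a, Q a, G a, r a, s a, N a, h a, hF a, nb_le (hN a), hG a, hfib a, hl⟩) t

/-- **The equivalences.** -/
theorem ent_tfae (hΦ : ∀ e, IsForm (Φ e)) (hcov : Covers F Q Φ G T)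
    (hG : ∀ a, MapOn (F a) (Q a) Φ (G a)) (hfib : ∀ a, FibLe (F a) (Q a) (G a) (r a))
    (hF : ∀ a, HighTowers (s a) (N a) (h a) (F a))
    (hN : ∀ a, (n a + 1) * ((h a + 1) * (4 * 10 ^ (2 * s a) * (r a + 1) ^ 7)) ≤ N a)
    (hT : ∀ H ∈ T, IsForm H) :
    [∀ f, Entire Φ f → ∀ t, ∀ H ∈ T, val (f t) H = 0,
      ∀ P, GmCurve Φ P → ∀ t : ℂ, t ≠ 0 → ∀ H ∈ T, val (fun i => (P i).eval t) H = 0,
      Pool.Agent.X333.DC.GenMod Φ T].TFAE := by
  have hN' := fun a => bound_alg (hN a)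
  tfae_have 2 → 1 := fun h f hf t H hH => ent_pw hΦ hcov hG hfib hF hN
    (fun H hH => ⟨hT H hH, fun P hP t ht => h P hP t ht H hH⟩) hf t hH
  tfae_have 2 → 3 := fun h => gen_pw hΦ hcov hG hfib hF hN'
    fun H hH => ⟨hT H hH, fun P hP t ht => h P hP t ht H hH⟩
  tfae_have 1 → 2 := by
    intro h P hP t ht H hH
    have h1 := h _ (entire_of_gm hP) (Complex.log t) H hH
    simp only [Complex.exp_log ht] at h1
    exact h1
  tfae_have 3 → 2 := by
    intro h P hP t ht H hH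
    have h1 : (fun i => (P i).eval t) ∈ SpGm Φ :=
      ⟨⟨hP.ne t ht, hP.mem t ht⟩, fun H' _ hH' => hH' P hP t ht⟩
    refine (gm_sub_alg hΦ h1).2 H (hT H hH) fun K _ _ w y hw hy hgt => ?_
    by_contra hne
    exact hgt (h K w y hw hy ⟨H, hH, hne⟩)
  tfae_finish

/-- maps from tori -/
theorem gm_of_torus (hΦ : ∀ e, IsForm (Φ e)) {w1 w2 : ℂ} (hw : LinearIndependent ℝ ![w1, w2])
    (hT : ∀ H ∈ T, IsForm H)
    (h : ∀ g, TorusCurve w1 w2 Φ g → ∀ z, ∀ H ∈ T, val (g z).rep H = 0)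
    {P : Fin (M + 1) → Polynomial ℂ} (hP : GmCurve Φ P) {t : ℂ} (ht : t ≠ 0)
    {H : MvPolynomial (Fin (M + 1)) ℂ} (hH : H ∈ T) : val (fun i => (P i).eval t) H = 0 := by
  have h1 : (fun i => (P i).eval t) ∈ SpGm Φ :=
    ⟨⟨hP.ne t ht, hP.mem t ht⟩, fun H' _ hH' => hH' P hP t ht⟩
  exact (gm_sub_e hw hΦ h1).2 H (hT H hH) fun g hg z => h g hg z H hH

end family

end Pool.Agent.X333.PW
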