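import Pool.Agent.X333.PW.Tor

/-!
Zariski closures of entire curves in projective varieties which are unions of images of
quasi-projective varieties given by nested sums of high powers.
-/

set_option autoImplicit false
set_option maxHeartbeats 400000
set_option linter.overlappingInstances false
set_option linter.unusedSectionVars false

open FF MvPolynomial IntermediateField Pool.Agent.W603.LV Filter

namespace Pool.Agent.X333.PW

open Pool.Agent.W602.GT Pool.Agent.TH466.QG Pool.Agent.TH710.ND Pool.Agent.Y221.FQ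
open Pool.Agent.Y221.AB Pool.Agent.TH143.EL Pool.Agent.Y221.BD Pool.Agent.X333.DN

section

variable {k : ℕ} {m : ℕ}

theorem eval_comp_tw {A : Type} [Field A] [Algebra ℂ A] (W : Fin m → MvPolynomial (Fin k ⊕ Fin k) ℂ)
    (T : Fin k → A) (P : MvPolynomial (Fin m) ℂ) :
    aeval (tw T) (aeval W P) = aeval (fun i => aeval (tw T) (W i)) P := by
  have h1 : (aeval (tw T) : MvPolynomial (Fin k ⊕ Fin k) ℂ →ₐ[ℂ] A).comp (aeval W) =
      aeval fun i => aeval (tw T) (W i) := by
    apply MvPolynomial.algHom_ext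
    intro i
    rw [AlgHom.comp_apply, aeval_X, aeval_X]
  exact DFunLike.congr_fun h1 P

theorem eval_comp_tw' (W : Fin m → MvPolynomial (Fin k ⊕ Fin k) ℂ)
    (T : Fin k → ℂ) (P : MvPolynomial (Fin m) ℂ) :
    eval (tw T) (aeval W P) = eval (fun i => eval (tw T) (W i)) P := by
  have h1 := eval_comp_tw W T P
  simp only [aeval_eq_eval] at h1
  exact h1

/-- a product of functions on a torus -/
theorem tw_mul {R1 R2 : MvPolynomial (Fin k ⊕ Fin k) ℂ}
    (h : ∀ T : Fin k → ℂ, (∀ j, T j ≠ 0) → eval (tw T) R1 * eval (tw T) R2 = 0)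
    (h2 : ∃ T : Fin k → ℂ, (∀ j, T j ≠ 0) ∧ eval (tw T) R2 ≠ 0) (T : Fin k → ℂ)
    (hT : ∀ j, T j ≠ 0) : eval (tw T) R1 = 0 := by
  classical
  obtain ⟨m1, p1, hp1⟩ := tw_clear R1
  obtain ⟨m2, p2, hp2⟩ := tw_clear R2
  have e1 : ∀ T : Fin k → ℂ, (∀ j, T j ≠ 0) → eval T p1 = (∏ j, T j) ^ m1 * eval (tw T) R1 := by
    intro T hT
    have h3 := hp1 ℂ T hT
    simp only [aeval_eq_eval] at h3
    exact h3
  have e2 : ∀ T : Fin k → ℂ, (∀ j, T j ≠ 0) → eval T p2 = (∏ j, T j) ^ m2 * eval (tw T) R2 := by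
    intro T hT
    have h3 := hp2 ℂ T hT
    simp only [aeval_eq_eval] at h3
    exact h3
  have hprod : p1 * p2 * ∏ j, X j = 0 := by
    refine MvPolynomial.funext fun T => ?_
    rw [map_mul, map_mul, map_zero, map_prod]
    simp only [eval_X]
    by_cases hT : ∀ j, T j ≠ 0
    · rw [e1 T hT, e2 T hT]
      have h3 := h T hT
      linear_combination (∏ j, T j) ^ m1 * (∏ j, T j) ^ m2 * (∏ j, T j) * h3
    · push Not at hT
      obtain ⟨j, hj⟩ := hT
      rw [Finset.prod_eq_zero (Finset.mem_univ j) hj, mul_zero]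
  have hX : (∏ j, X j : MvPolynomial (Fin k) ℂ) ≠ 0 :=
    Finset.prod_ne_zero_iff.2 fun j _ => X_ne_zero j
  have h3 : p1 = 0 ∨ p2 = 0 := mul_eq_zero.1 ((mul_eq_zero.1 hprod).resolve_right hX)
  have hpr : ∀ T : Fin k → ℂ, (∀ j, T j ≠ 0) → (∏ j, T j) ≠ 0 := fun T hT =>
    Finset.prod_ne_zero_iff.2 fun j _ => hT j
  rcases h3 with h3 | h3
  · have h4 := e1 T hT
    rw [h3, map_zero] at h4
    exact (mul_eq_zero.1 h4.symm).resolve_left (pow_ne_zero _ (hpr T hT))
  · obtain ⟨T', hT', h5⟩ := h2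
    have h4 := e2 T' hT'
    rw [h3, map_zero] at h4
    exact absurd ((mul_eq_zero.1 h4.symm).resolve_left (pow_ne_zero _ (hpr T' hT'))) h5

end

section

variable {n M : ℕ} {ι μ : Type}
  {F : ι → MvPolynomial (Fin (n + 1)) ℂ} {Q : MvPolynomial (Fin (n + 1)) ℂ}
  {Φ : μ → MvPolynomial (Fin (M + 1)) ℂ} {G : Fin (M + 1) → MvPolynomial (Fin (n + 1)) ℂ}

/-- the image of the rational variety through a point -/
theorem image_tower (hG : MapOn F Q Φ G) {E : Type} [Field E] [Algebra ℂ E]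
    {u : Fin (n + 1) → E} (hu : Pt F Q u) {s N h : ℕ} (hF : HighTowers s N h F) (hN : 1 ≤ N)
    (hB : BorW (⊥ : IntermediateField ℂ E) (2 * s) N) :
    ∃ (k : ℕ) (W : Fin (M + 1) → MvPolynomial (Fin k ⊕ Fin k) ℂ),
      (∀ T : Fin k → ℂ, (∀ j, T j ≠ 0) → ∀ e, eval (fun l => eval (tw T) (W l)) (Φ e) = 0) ∧
      ∀ H : MvPolynomial (Fin (M + 1)) ℂ,
        (∀ T : Fin k → ℂ, (∀ j, T j ≠ 0) → eval (fun l => eval (tw T) (W l)) H = 0) →
        val (im G u) H = 0 := by
  classical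
  obtain ⟨k, b, W, hb, hWb, hW⟩ := param_tower hF hN hB hu.2.1
  obtain ⟨i0, hi0'⟩ := Function.ne_iff.1 hu.1
  have hi0 : u i0 ≠ 0 := hi0'
  have hub : (fun i => aeval (tw b) (W i)) = u := funext hWb
  have hcomp : ∀ (T : Fin k → ℂ) (P : MvPolynomial (Fin (M + 1)) ℂ),
      eval (tw T) (aeval (fun l => aeval W (G l)) P) =
        eval (fun l => eval (tw T) (aeval W (G l))) P := fun T P => eval_comp_tw' _ T P
  refine ⟨k, fun l => aeval W (G l), fun T hT e => ?_, fun H hH => ?_⟩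
  · rw [← hcomp]
    refine tw_mul (R2 := aeval W Q * W i0) (fun T hT => ?_) ?_ T hT
    · rw [map_mul, hcomp]
      by_cases hx : eval (tw T) (aeval W Q) = 0 ∨ eval (tw T) (W i0) = 0
      · rcases hx with hx | hx
        · rw [hx, zero_mul, mul_zero]
        · rw [hx, mul_zero, mul_zero]
      · push Not at hx
        obtain ⟨hx1, hx2⟩ := hx
        have hPt : Pt F Q (fun i => eval (tw T) (W i)) := by
          refine ⟨fun h0 => hx2 (congrFun h0 i0), fun e => ?_, ?_⟩
          · have h1 := hW T hT e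
            unfold Pool.Agent.W602.GT.val
            rw [aeval_eq_eval]
            exact h1
          · rw [eval_comp_tw'] at hx1
            unfold Pool.Agent.W602.GT.val
            rw [aeval_eq_eval]
            exact hx1
        have h1 := (hG.maps _ hPt).2 e
        have h2 : im G (fun i => eval (tw T) (W i)) = fun l => eval (tw T) (aeval W (G l)) := by
          funext l
          rw [eval_comp_tw']
          unfold im Pool.Agent.W602.GT.val
          rw [aeval_eq_eval]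
        rw [h2] at h1
        unfold Pool.Agent.W602.GT.val at h1
        rw [aeval_eq_eval] at h1
        have h3 : eval (fun l => eval (tw T) (aeval W (G l))) (Φ e) = 0 := h1
        rw [h3, zero_mul]
    · by_contra hcon
      push Not at hcon
      have h1 := tw_vanish hcon hb
      rw [map_mul, eval_comp_tw, hub, hWb] at h1
      rcases mul_eq_zero.1 h1 with h2 | h2
      · exact hu.2.2 h2
      · exact hi0 h2
  · have h1 := tw_vanish (R := aeval (fun l => aeval W (G l)) H) (fun T hT => by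
      rw [hcomp]
      exact hH T hT) hb
    rw [eval_comp_tw] at h1
    have h2 : (fun l => aeval (tw b) (aeval W (G l))) = im G u := by
      funext l
      rw [eval_comp_tw, hub]
      rfl
    rw [h2] at h1
    exact h1

/-- **Zariski closures of entire curves.** -/
theorem closure_ent {f : ℂ → Fin (M + 1) → ℂ} (hf : Entire Φ f)
    {T : Set (MvPolynomial (Fin (M + 1)) ℂ)} (hne : ∃ t, ∃ H ∈ T, val (f t) H ≠ 0)
    (hall : ∀ z : Fin (M + 1) → MK, z ≠ 0 → (∀ e, val z (Φ e) = 0) → (∃ H ∈ T, val z H ≠ 0) →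
      ∃ (n : ℕ) (ι : Type) (F : ι → MvPolynomial (Fin (n + 1)) ℂ)
        (Q : MvPolynomial (Fin (n + 1)) ℂ) (G : Fin (M + 1) → MvPolynomial (Fin (n + 1)) ℂ)
        (r s N h : ℕ), HighTowers s N h F ∧ NB r (2 * s) ≤ N ∧ MapOn F Q Φ G ∧
          Lift F Q G r z) :
    ∃ (k : ℕ) (W : Fin (M + 1) → MvPolynomial (Fin k ⊕ Fin k) ℂ),
      (∀ T : Fin k → ℂ, (∀ j, T j ≠ 0) → ∀ e, eval (fun l => eval (tw T) (W l)) (Φ e) = 0) ∧
      ∀ H : MvPolynomial (Fin (M + 1)) ℂ, IsForm H →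
        (∀ T : Fin k → ℂ, (∀ j, T j ≠ 0) → eval (fun l => eval (tw T) (W l)) H = 0) →
        ∀ t, val (f t) H = 0 := by
  classical
  obtain ⟨f', hf'⟩ : ∃ f' : Fin (M + 1) → ℂ → ℂ, ∀ i t, f' i t = f t i := ⟨_, fun _ _ => rfl⟩
  have hff : ∀ t, (fun i => f' i t) = f t := fun t => funext fun i => hf' i t
  have hhol : ∀ i, Differentiable ℂ (f' i) := by
    intro i
    have : f' i = fun t => f t i := funext (hf' i)
    rw [this]
    exact hf.hol i
  have hmer : ∀ i, Meromorphic (f' i) := fun i t =>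
    ((hhol i).analyticAt t).meromorphicAt
  obtain ⟨z, hzdef⟩ : ∃ z : Fin (M + 1) → MK, z = fun i => cl (f' i) (hmer i) := ⟨_, rfl⟩
  have hcont : ∀ T : MvPolynomial (Fin (M + 1)) ℂ,
      Continuous fun t => MvPolynomial.eval (fun i => f' i t) T := fun T =>
    (MvPolynomial.continuous_eval T).comp (continuous_pi fun i => (hhol i).continuous)
  have hvz : ∀ T : MvPolynomial (Fin (M + 1)) ℂ, val z T = 0 ↔ ∀ t, val (f t) T = 0 := by
    intro T
    rw [hzdef, val_cl hmer T, cl_eq_zero]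
    have h1 : ∀ t, MvPolynomial.eval (fun i => f' i t) T = val (f t) T := by
      intro t
      rw [hff]
      unfold Pool.Agent.W602.GT.val
      rw [MvPolynomial.aeval_eq_eval]
    constructor
    · intro h t
      rw [← h1]
      exact eq_of_codis (g := fun _ => 0) h (hcont T).continuousAt continuousAt_const
    · intro h
      exact Eventually.of_forall fun t => (h1 t).trans (h t)
  have hz : z ≠ 0 := by
    intro h0
    apply (hf.mem 0).1
    funext i
    have h1 := (hvz (X i)).1 (by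
      unfold Pool.Agent.W602.GT.val
      rw [aeval_X, h0]
      rfl) 0
    unfold Pool.Agent.W602.GT.val at h1
    rwa [aeval_X] at h1
  have hzΦ : ∀ e, val z (Φ e) = 0 := fun e => (hvz _).2 fun t => (hf.mem t).2 e
  have hzT : ∃ H ∈ T, val z H ≠ 0 := by
    obtain ⟨t, H, hH, hne⟩ := hne
    exact ⟨H, hH, fun h0 => hne ((hvz H).1 h0 t)⟩
  obtain ⟨n, ι, F, Q, G, r, s, N, h, hF, hN, hG, hl⟩ := hall z hz hzΦ hzT
  obtain ⟨E, i1, i2, i3, i4, i5, u, c, hrk, hu, hc0, hcz⟩ := hl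
  obtain ⟨k, W, hW1, hW2⟩ := image_tower hG hu hF ((one_le_NB r _).trans hN) (bor_bot hrk hN)
  refine ⟨k, W, hW1, fun H hHf hH => (hvz H).1 ?_⟩
  obtain ⟨d, hd⟩ := hHf
  have h1 : val (fun j => c * im G u j) H = c ^ d * val (im G u) H := val_smul hd _ _
  rw [hW2 H hH, mul_zero] at h1
  have h2 := val_map (IsScalarTower.toAlgHom ℂ MK E) H z
  have h3 : (fun i => (IsScalarTower.toAlgHom ℂ MK E) (z i)) = fun j => c * im G u j := funext hcz
  rw [h3, h1] at h2
  have h4 : algebraMap MK E (val z H) = 0 := h2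
  exact (map_eq_zero (algebraMap MK E)).1 h4

variable {α : Type} [Finite α] {n : α → ℕ} {ι : α → Type}
    {F : ∀ a, ι a → MvPolynomial (Fin (n a + 1)) ℂ} {Q : ∀ a, MvPolynomial (Fin (n a + 1)) ℂ}
    {Φ : μ → MvPolynomial (Fin (M + 1)) ℂ}
    {G : ∀ a, Fin (M + 1) → MvPolynomial (Fin (n a + 1)) ℂ} {r s N h : α → ℕ}
    {T : Set (MvPolynomial (Fin (M + 1)) ℂ)}

/-- **Zariski closures of entire curves in unions of images.** -/
theorem closure_pw (hcov : Covers F Q Φ G T)
    (hG : ∀ a, MapOn (F a) (Q a) Φ (G a)) (hfib : ∀ a, FibLe (F a) (Q a) (G a) (r a))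
    (hF : ∀ a, HighTowers (s a) (N a) (h a) (F a))
    (hN : ∀ a, (n a + 1) * ((h a + 1) * (4 * 10 ^ (2 * s a) * (r a + 1) ^ 7)) ≤ N a)
    {f : ℂ → Fin (M + 1) → ℂ} (hf : Entire Φ f) (hne : ∃ t, ∃ H ∈ T, val (f t) H ≠ 0) :
    ∃ (k : ℕ) (W : Fin (M + 1) → MvPolynomial (Fin k ⊕ Fin k) ℂ),
      (∀ T : Fin k → ℂ, (∀ j, T j ≠ 0) → ∀ e, eval (fun l => eval (tw T) (W l)) (Φ e) = 0) ∧
      ∀ H : MvPolynomial (Fin (M + 1)) ℂ, IsForm H →
        (∀ T : Fin k → ℂ, (∀ j, T j ≠ 0) → eval (fun l => eval (tw T) (W l)) H = 0) →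
        ∀ t, val (f t) H = 0 :=
  closure_ent hf hne fun z hz hzΦ hzT => by
    obtain ⟨a, hl⟩ := lift_all hcov hG (fun a => (hF a).form) hfib hz hzΦ hzT
    exact ⟨n a, ι a, F a, Q a, G a, r a, s a, N a, h a, hF a, nb_le (hN a), hG a, hl⟩

end

end Pool.Agent.X333.PW
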