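import Pool.Agent.X333.PW.Def
import Pool.Agent.X333.DC.FimT
import Pool.Agent.X333.DC.Rgm

/-!
Projective varieties which are unions of images of open subsets of nested sums of high powers:
curves through the moving points.
-/

set_option autoImplicit false
set_option maxHeartbeats 400000
set_option linter.overlappingInstances false
set_option linter.unusedSectionVars false

open FF Pool.Agent.W603.LV

namespace Pool.Agent.X333.PW

open Pool.Agent.W602.GT Pool.Agent.TH466.QG Pool.Agent.Y221.BD Pool.Agent.Y221.AH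
  Pool.Agent.TH710.ND Pool.Agent.X333.DN Pool.Agent.Y221.FQ Pool.Agent.X333.DC

variable {k : Type} [Field k] [IsAlgClosed k] [CharZero k] {n M : ℕ} {ι μ : Type}
  {F : ι → MvPolynomial (Fin (n + 1)) k} {Q : MvPolynomial (Fin (n + 1)) k}
  {Φ : μ → MvPolynomial (Fin (M + 1)) k} {G : Fin (M + 1) → MvPolynomial (Fin (n + 1)) k}

/-- points over extensions -/
theorem MapOn.mem (h : MapOn F Q Φ G) {K : Type} [Field K] [Algebra k K]
    {u : Fin (n + 1) → K} (hu : Pt F Q u) :
    im G u ≠ 0 ∧ ∀ e, val (im G u) (Φ e) = 0 := by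
  obtain ⟨hu0, huF, huQ⟩ := hu
  obtain ⟨b, hb⟩ := Function.ne_iff.1 hu0
  have hmul : ∀ {A : Type} [Field A] [Algebra k A] (x : Fin (n + 1) → A)
      (P R : MvPolynomial (Fin (n + 1)) k), val x (P * R) = val x P * val x R :=
    fun x P R => map_mul _ _ _
  have hX : ∀ {A : Type} [Field A] [Algebra k A] (x : Fin (n + 1) → A),
      val x (MvPolynomial.X b : MvPolynomial (Fin (n + 1)) k) = x b :=
    fun x => MvPolynomial.aeval_X _ _
  have hpt : ∀ x : Fin (n + 1) → k, val x (Q * MvPolynomial.X b) ≠ 0 →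
      (∀ p : MvPolynomial (Fin (n + 1)) k, val u p = 0 → val x p = 0) → Pt F Q x := by
    intro x hx hx0
    rw [hmul, hX] at hx
    exact ⟨fun h0 => right_ne_zero_of_mul hx (congrFun h0 b), fun e => hx0 _ (huF e),
      left_ne_zero_of_mul hx⟩
  have hQb : val u (Q * MvPolynomial.X b) ≠ 0 := by
    rw [hmul, hX]
    exact mul_ne_zero huQ hb
  constructor
  · intro h0
    obtain ⟨x, hx, hx0⟩ := specialise (k := k) u (Q * MvPolynomial.X b) hQb
    refine (h.maps x (hpt x hx hx0)).1 ?_
    funext j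
    exact hx0 _ (congrFun h0 j)
  · intro e
    rw [val_im]
    by_contra hcon
    obtain ⟨x, hx, hx0⟩ := specialise (k := k) u (Q * MvPolynomial.X b * MvPolynomial.aeval G (Φ e))
      (by
        change val u _ ≠ 0
        rw [hmul]
        exact mul_ne_zero hQb hcon)
    change val x _ ≠ 0 at hx
    rw [hmul] at hx
    have h1 := (h.maps x (hpt x (left_ne_zero_of_mul hx) hx0)).2 e
    rw [val_im] at h1
    exact right_ne_zero_of_mul hx h1

/-- the curve meets a point finitely often -/
theorem fin_pt {P : Fin (n + 1) → Polynomial k} (hP : GmCurve F P) {y : Fin (n + 1) → k}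
    (hy : y ≠ 0) : {t : k | ∃ c : k, (fun i => (P i).eval t) = c • y}.Finite := by
  by_contra hcon
  have hinf : {t : k | ∃ c : k, (fun i => (P i).eval t) = c • y}.Infinite := hcon
  obtain ⟨b, hb'⟩ := Function.ne_iff.1 hy
  have hb : y b ≠ 0 := hb'
  have h1 : ∀ i, P i = Polynomial.C (y i / y b) * P b := by
    intro i
    refine Polynomial.eq_of_infinite_eval_eq _ _ (hinf.mono ?_)
    rintro t ⟨c, hc⟩
    have e1 : (P i).eval t = c * y i := congrFun hc i
    have e2 : (P b).eval t = c * y b := congrFun hc b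
    change Polynomial.eval t _ = Polynomial.eval t _
    rw [Polynomial.eval_mul, Polynomial.eval_C, e1, e2]
    field_simp
  obtain ⟨t, t', ht, ht', hli⟩ := hP.nonconst
  rw [LinearIndependent.pair_iff] at hli
  have h2 := hli ((P b).eval t') (-(P b).eval t) (by
    funext i
    simp only [Pi.add_apply, Pi.smul_apply, smul_eq_mul, Pi.zero_apply]
    rw [h1 i]
    simp only [Polynomial.eval_mul, Polynomial.eval_C]
    ring)
  apply hP.ne t' ht'
  funext i
  change (P i).eval t' = 0
  rw [h1 i, Polynomial.eval_mul, h2.1, mul_zero]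

/-- **Curves in the image.** A curve from the multiplicative group in `{F = 0}` which meets
`{Q ≠ 0}` gives such a curve in `{Φ = 0}`. -/
theorem push (hΦ : ∀ e, IsForm (Φ e)) (hG : MapOn F Q Φ G) {r : ℕ} (hfib : FibLe F Q G r)
    {P : Fin (n + 1) → Polynomial k} (hP : GmCurve F P) {t0 : k} (ht0 : t0 ≠ 0)
    (hQ0 : val (fun i => (P i).eval t0) Q ≠ 0) :
    ∃ P' : Fin (M + 1) → Polynomial k, GmCurve Φ P' ∧ ∃ c : k,
      im G (fun i => (P i).eval t0) = fun a => c * (P' a).eval t0 := by
  classical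
  have hinf : Infinite k := inferInstance
  obtain ⟨R, hR⟩ : ∃ R : Polynomial k, ∀ t, R.eval t = val (fun i => (P i).eval t) Q := by
    obtain ⟨R, hR, -⟩ := val_poly P Q
    exact ⟨R, hR⟩
  have hR0 : R ≠ 0 := by
    rintro rfl
    apply hQ0
    rw [← hR, Polynomial.eval_zero]
  have hpt : ∀ t, t ≠ 0 → R.eval t ≠ 0 → Pt F Q fun i => (P i).eval t := fun t ht h =>
    ⟨hP.ne t ht, hP.mem t ht, by rw [← hR]; exact h⟩
  obtain ⟨W, hW⟩ : ∃ W : Fin (M + 1) → Polynomial k, ∀ a t,
      (W a).eval t = im G (fun i => (P i).eval t) a := by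
    have h1 : ∀ a, ∃ W : Polynomial k, ∀ t, W.eval t = im G (fun i => (P i).eval t) a := by
      intro a
      obtain ⟨W, hW, -⟩ := val_poly P (G a)
      exact ⟨W, hW⟩
    choose W hW using h1
    exact ⟨W, hW⟩
  have hpt0 := hpt t0 ht0 (by rw [hR]; exact hQ0)
  obtain ⟨a0, ha0'⟩ := Function.ne_iff.1 (hG.maps _ hpt0).1
  have hWne : ∃ a, W a ≠ 0 := by
    refine ⟨a0, fun h0 => ha0' ?_⟩
    rw [← hW, h0, Polynomial.eval_zero]
    rfl
  obtain ⟨g, P', c', hg, hWP, hc'⟩ := prim W hWne
  have hev : ∀ a t, im G (fun i => (P i).eval t) a = g.eval t * (P' a).eval t := by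
    intro a t
    rw [← hW, hWP, Polynomial.eval_mul]
  have hne : ∀ t, (fun i => (P' i).eval t) ≠ 0 := by
    intro t h0
    have h1 := congrArg (Polynomial.eval t) hc'
    rw [Polynomial.eval_finsetSum, Polynomial.eval_one] at h1
    apply zero_ne_one (α := k)
    rw [← h1]
    symm
    refine Finset.sum_eq_zero fun a _ => ?_
    have h2 : (P' a).eval t = 0 := congrFun h0 a
    rw [Polynomial.eval_mul, h2, mul_zero]
  have hmem : ∀ e t, val (fun i => (P' i).eval t) (Φ e) = 0 := by
    intro e
    obtain ⟨S, hS, -⟩ := val_poly P' (Φ e)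
    obtain ⟨d, hd⟩ := hΦ e
    have h1 : g ^ d * S * R = 0 := poly_zero fun t ht => by
      rw [Polynomial.eval_mul, Polynomial.eval_mul, Polynomial.eval_pow]
      by_cases hRt : R.eval t = 0
      · rw [hRt, mul_zero]
      · have h2 := (hG.maps _ (hpt t ht hRt)).2 e
        have h3 : im G (fun i => (P i).eval t) = fun a => g.eval t * (P' a).eval t :=
          funext fun a => hev a t
        rw [h3, val_smul hd] at h2
        rw [hS, h2, zero_mul]
    have h2 : S = 0 := by
      rcases mul_eq_zero.1 h1 with h2 | h2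
      · exact (mul_eq_zero.1 h2).resolve_left (pow_ne_zero _ hg)
      · exact absurd h2 hR0
    intro t
    rw [← hS, h2, Polynomial.eval_zero]
  refine ⟨P', ⟨fun t _ => hne t, fun t _ e => hmem e t, ?_⟩, g.eval t0, funext fun a => hev a t0⟩
  by_contra hcon
  push Not at hcon
  -- all points of the curve have the same image
  have hprop : ∀ t, t ≠ 0 → ∃ c : k, (fun i => (P' i).eval t) = c • fun i => (P' i).eval 1 := by
    intro t ht
    have h1 := hcon t 1 ht one_ne_zero
    rw [LinearIndependent.pair_iff] at h1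
    push Not at h1
    obtain ⟨a, b, hab, hne'⟩ := h1
    have ha : a ≠ 0 := by
      intro h0
      rw [h0, zero_smul, zero_add] at hab
      rcases smul_eq_zero.1 hab with h2 | h2
      · exact hne' h0 h2
      · exact hne 1 h2
    refine ⟨-(a⁻¹ * b), ?_⟩
    have h2 : a⁻¹ • (a • (fun i => (P' i).eval t) + b • fun i => (P' i).eval 1) = 0 := by
      rw [hab, smul_zero]
    rw [smul_add, smul_smul, smul_smul, inv_mul_cancel₀ ha, one_smul] at h2
    rw [neg_smul]
    exact eq_neg_of_add_eq_zero_left h2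
  have him : ∀ t, t ≠ 0 → ∃ c : k, im G (fun i => (P i).eval t) =
      c • fun i => (P' i).eval 1 := by
    intro t ht
    obtain ⟨c, hc⟩ := hprop t ht
    refine ⟨g.eval t * c, ?_⟩
    funext a
    rw [hev]
    have h2 := congrFun hc a
    simp only [Pi.smul_apply, smul_eq_mul] at h2 ⊢
    rw [h2]
    ring
  -- pairwise different points of the curve
  have hbad : ∀ m : ℕ, ∃ t : Fin m → k, (∀ i, t i ≠ 0 ∧ R.eval (t i) ≠ 0) ∧
      ∀ i j, i ≠ j → ¬ ∃ c : k, (fun l => (P l).eval (t i)) = c • fun l => (P l).eval (t j) := by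
    intro m
    induction m with
    | zero => exact ⟨fun i => i.elim0, fun i => i.elim0, fun i => i.elim0⟩
    | succ m ih =>
      obtain ⟨t, ht, htt⟩ := ih
      have hfin : ({0} ∪ {s | R.eval s = 0} ∪ ⋃ i : Fin m,
          {s : k | ∃ c : k, (fun l => (P l).eval s) = c • fun l => (P l).eval (t i)}).Finite := by
        refine Set.Finite.union (Set.Finite.union (Set.finite_singleton 0) ?_)
          (Set.finite_iUnion fun i => fin_pt hP (hP.ne _ (ht i).1))
        refine Set.Finite.subset (R.roots.toFinset.finite_toSet) ?_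
        intro s hs
        simp only [Multiset.mem_toFinset, Finset.mem_coe]
        exact (Polynomial.mem_roots hR0).2 hs
      obtain ⟨s, hs⟩ := hfin.exists_notMem
      simp only [Set.mem_union, Set.mem_singleton_iff, Set.mem_ofPred_eq, Set.mem_iUnion,
        not_or, not_exists] at hs
      obtain ⟨⟨hs0, hsR⟩, hsi⟩ := hs
      refine ⟨Fin.cons s t, ?_, ?_⟩
      · intro i
        refine Fin.cases ?_ (fun i => ?_) i
        · rw [Fin.cons_zero]
          exact ⟨hs0, hsR⟩
        · rw [Fin.cons_succ]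
          exact ht i
      · intro i j
        refine Fin.cases ?_ (fun i => ?_) i <;> refine Fin.cases ?_ (fun j => ?_) j
        · intro h
          exact absurd rfl h
        · rintro - ⟨c, hc⟩
          rw [Fin.cons_zero, Fin.cons_succ] at hc
          exact hsi j c hc
        · rintro - ⟨c, hc⟩
          rw [Fin.cons_zero, Fin.cons_succ] at hc
          have hc0 : c ≠ 0 := by
            rintro rfl
            rw [zero_smul] at hc
            exact hP.ne _ (ht i).1 hc
          refine hsi i c⁻¹ ?_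
          rw [hc, smul_smul, inv_mul_cancel₀ hc0, one_smul]
        · intro h
          rw [Fin.cons_succ, Fin.cons_succ]
          exact htt i j fun h' => h (congrArg _ h')
  obtain ⟨t, ht, htt⟩ := hbad (r + 1)
  obtain ⟨i, j, hij, c, hc⟩ := hfib (fun i l => (P l).eval (t i))
    (fun i => hpt _ (ht i).1 (ht i).2) (fun i j => by
      obtain ⟨c, hc⟩ := him (t i) (ht i).1
      obtain ⟨c2, hc2⟩ := him (t j) (ht j).1
      have hc20 : c2 ≠ 0 := by
        rintro rfl
        rw [zero_smul] at hc2
        exact (hG.maps _ (hpt _ (ht j).1 (ht j).2)).1 hc2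
      refine ⟨c * c2⁻¹, ?_⟩
      rw [hc, hc2, smul_smul, mul_assoc, inv_mul_cancel₀ hc20, mul_one])
  exact htt i j hij ⟨c, hc⟩

/-- **Forms.** -/
theorem vanGm_push (hΦ : ∀ e, IsForm (Φ e)) (hG : MapOn F Q Φ G) {r : ℕ}
    (hfib : FibLe F Q G r) {H : MvPolynomial (Fin (M + 1)) k} (hHf : IsForm H)
    (hGm : VanGm Φ H) : IsForm (MvPolynomial.aeval G H * Q) ∧
      VanGm F (MvPolynomial.aeval G H * Q) := by
  obtain ⟨e, hGe⟩ := hG.form
  constructor
  · obtain ⟨a, ha⟩ := form_im hGe hHf
    obtain ⟨b, hb⟩ := hG.formQ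
    exact ⟨a + b, ha.mul hb⟩
  · intro P hP t ht
    have hmul : val (fun i => (P i).eval t) (MvPolynomial.aeval G H * Q) =
        val (fun i => (P i).eval t) (MvPolynomial.aeval G H) * val (fun i => (P i).eval t) Q :=
      map_mul _ _ _
    rw [hmul]
    by_cases hQ : val (fun i => (P i).eval t) Q = 0
    · rw [hQ, mul_zero]
    · obtain ⟨P', hP', c, hc⟩ := push hΦ hG hfib hP ht hQ
      obtain ⟨d, hd⟩ := hHf
      rw [← val_im, hc, val_smul hd, hGm P' hP' t ht, mul_zero, zero_mul]

/-- **Moving points.** -/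
theorem mv_van (hΦ : ∀ e, IsForm (Φ e)) (hG : MapOn F Q Φ G) {r : ℕ} (hfib : FibLe F Q G r)
    {E L : Type} [Field E] [Field L] [Algebra k E] [Algebra k L] [Algebra L E]
    [IsScalarTower k L E] {u : Fin (n + 1) → E} (hu : Pt F Q u) {z : Fin (M + 1) → L} {c : E}
    (hcz : ∀ j, algebraMap L E (z j) = c * im G u j)
    (hvan : ∀ H' : MvPolynomial (Fin (n + 1)) k, IsForm H' → VanGm F H' → val u H' = 0)
    {H : MvPolynomial (Fin (M + 1)) k} (hHf : IsForm H) (hGm : VanGm Φ H) : val z H = 0 := by
  obtain ⟨h1, h2⟩ := vanGm_push hΦ hG hfib hHf hGm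
  have h3 := hvan _ h1 h2
  have hmul : val u (MvPolynomial.aeval G H * Q) =
      val u (MvPolynomial.aeval G H) * val u Q := map_mul _ _ _
  rw [hmul] at h3
  refine val_prop hcz hHf ?_
  rw [val_im]
  exact (mul_eq_zero.1 h3).resolve_right hu.2.2

/-- **Subvarieties.** -/
theorem sub_van_pw (hΦ : ∀ e, IsForm (Φ e)) (hG : MapOn F Q Φ G) {r s N h : ℕ}
    (hfib : FibLe F Q G r) (hF : HighTowers s N h F)
    (hN : 8 * (r * ((n + 1) * ((h + 1) * (2 * s + 1) ^ 5))) ≤ N) {L : Type} [Field L]
    [Algebra k L] {w : ℕ} {z : Fin (M + 1) → L} (hw : 1 ≤ w) (hz : SubVar Φ L w z)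
    (hl : Lift F Q G r z) (hgt : ¬ GeneralType k L w) {H : MvPolynomial (Fin (M + 1)) k}
    (hHf : IsForm H) (hGm : VanGm Φ H) : val z H = 0 := by
  obtain ⟨E, i1, i2, i3, i4, i5, u, c, hrk, hu, hc0, hcz⟩ := hl
  obtain ⟨e, hGe⟩ := hG.form
  have htr : Algebra.trdeg k E = w := by rw [trdeg_alg (E := L), hz.dim]
  -- the coordinates of `z` are rational functions of the coordinates of `u`
  have hsub : ∀ x : L, algebraMap L E x ∈ coords k u := by
    obtain ⟨i0, hi0'⟩ := Function.ne_iff.1 hu.1
    have hi0 : u i0 ≠ 0 := hi0'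
    have hval : ∀ p : MvPolynomial (Fin (n + 1)) k, val (fun i => u i / u i0) p ∈ coords k u := by
      intro p
      have h1 : ∀ i, u i / u i0 ∈ coords k u := fun i =>
        IntermediateField.subset_adjoin k _ ⟨i, i0, hi0, rfl⟩
      have h2 := val_map (coords k u).val p fun i => (⟨u i / u i0, h1 i⟩ : coords k u)
      have h3 : (fun i => (coords k u).val (⟨u i / u i0, h1 i⟩ : coords k u)) =
          fun i => u i / u i0 := rfl
      rw [h3] at h2
      rw [← h2]
      exact Subtype.property _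
    have hGu : ∀ a, im G u a = u i0 ^ e * val (fun i => u i / u i0) (G a) := by
      intro a
      rw [← val_smul (hGe a)]
      congr 1
      funext i
      field_simp
    intro x
    have hx : x ∈ coords k z := by rw [hz.gen]; trivial
    have hxE : algebraMap L E x ∈ (coords k z).map (IsScalarTower.toAlgHom k L E) := ⟨x, hx, rfl⟩
    have hle : (coords k z).map (IsScalarTower.toAlgHom k L E) ≤ coords k u := by
      unfold coords
      rw [IntermediateField.adjoin_map, IntermediateField.adjoin_le_iff]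
      rintro _ ⟨_, ⟨a, b, hb, rfl⟩, rfl⟩
      have hb' : algebraMap L E (z b) ≠ 0 := (map_ne_zero _).2 hb
      change algebraMap L E (z a / z b) ∈ coords k u
      rw [map_div₀, hcz, hcz, hGu, hGu]
      have h5 : c * (u i0 ^ e * val (fun i => u i / u i0) (G a)) /
          (c * (u i0 ^ e * val (fun i => u i / u i0) (G b))) =
          val (fun i => u i / u i0) (G a) / val (fun i => u i / u i0) (G b) := by
        rw [mul_div_mul_left _ _ hc0, mul_div_mul_left _ _ (pow_ne_zero _ hi0)]
      rw [h5]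
      exact div_mem (hval _) (hval _)
    exact hle hxE
  have halg : Algebra.IsAlgebraic (coords k u) E := by
    let φ : L →+* coords k u := (algebraMap L E).codRestrict (coords k u).toSubring hsub
    refine ⟨fun x => ?_⟩
    obtain ⟨p, hp, hpx⟩ := (Algebra.IsAlgebraic.isAlgebraic (R := L) x)
    refine ⟨p.map φ, ?_, ?_⟩
    · rw [Ne, Polynomial.map_eq_zero]
      exact hp
    · rw [Polynomial.aeval_def, Polynomial.eval₂_map]
      exact hpx
  have hwn : w ≤ n := Pool.Agent.W602.GT.dim_le hu.1 halg htr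
  have hr1 : 1 ≤ r := one_le_rank (L := L) (K' := E) hrk
  obtain ⟨hb1, hb2⟩ := bound_le hr1 hwn hN
  have hC : ¬ HasNest k s h N w E := by
    intro hC
    exact hgt (general_below' hw hrk hC hb1)
  exact mv_van hΦ hG hfib hu hcz (fun H' hH' hGm' =>
    van_nest hF hb2 htr halg hu.2.1 hC hH' hGm') hHf hGm

end Pool.Agent.X333.PW
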