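import Pool.Agent.Y221.FQ.Defs

/-!
Projective varieties which are finite unions of images of quasi-projective varieties.
-/

set_option autoImplicit false

namespace Pool.Agent.X333.PW

open Pool.Agent.W602.GT Pool.Agent.Y221.FQ

variable {k : Type} [Field k] {n M : ℕ} {ι μ : Type}

/-- `u` gives a point of the quasi-projective variety `{F = 0, Q ≠ 0}` over a field `K`. -/
def Pt (F : ι → MvPolynomial (Fin (n + 1)) k) (Q : MvPolynomial (Fin (n + 1)) k) {K : Type}
    [Field K] [Algebra k K] (u : Fin (n + 1) → K) : Prop :=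
  u ≠ 0 ∧ (∀ e, val u (F e) = 0) ∧ val u Q ≠ 0

/-- `Q` is a form, `G 0, ..., G M` are forms of the same degree, and `(G 0 : ... : G M)` is a
morphism from `{F = 0, Q ≠ 0}` to the projective variety `{Φ = 0}`: at all points `x` of
`{F = 0, Q ≠ 0}` the `G j (x)` are not all zero and they are the coordinates of a point of
`{Φ = 0}`. (It need not extend to `{F = 0}`.) -/
structure MapOn (F : ι → MvPolynomial (Fin (n + 1)) k) (Q : MvPolynomial (Fin (n + 1)) k)
    (Φ : μ → MvPolynomial (Fin (M + 1)) k) (G : Fin (M + 1) → MvPolynomial (Fin (n + 1)) k) :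
    Prop where
  formQ : IsForm Q
  form : ∃ e, ∀ j, (G j).IsHomogeneous e
  maps : ∀ x : Fin (n + 1) → k, Pt F Q x → im G x ∈ Cone Φ

/-- The fibres of the map given by `G` on `{F = 0, Q ≠ 0}` have at most `r` points: among any
`r + 1` points of `{F = 0, Q ≠ 0}` with the same image two are equal. -/
def FibLe (F : ι → MvPolynomial (Fin (n + 1)) k) (Q : MvPolynomial (Fin (n + 1)) k)
    (G : Fin (M + 1) → MvPolynomial (Fin (n + 1)) k) (r : ℕ) : Prop :=
  ∀ x : Fin (r + 1) → Fin (n + 1) → k, (∀ i, Pt F Q (x i)) →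
    (∀ i j, ∃ c : k, im G (x i) = c • im G (x j)) → ∃ i j, i ≠ j ∧ ∃ c : k, x i = c • x j

/-- All points of the projective variety `{Φ = 0}` which do not lie in the closed subset where all
forms in `T` vanish lie in the union of the images of the quasi-projective varieties
`{F_a = 0, Q_a ≠ 0}` under the maps given by `G_a`. -/
def Covers {α : Type} {n : α → ℕ} {ι : α → Type}
    (F : ∀ a, ι a → MvPolynomial (Fin (n a + 1)) k) (Q : ∀ a, MvPolynomial (Fin (n a + 1)) k)
    (Φ : μ → MvPolynomial (Fin (M + 1)) k)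
    (G : ∀ a, Fin (M + 1) → MvPolynomial (Fin (n a + 1)) k)
    (T : Set (MvPolynomial (Fin (M + 1)) k)) : Prop :=
  ∀ q ∈ Cone Φ, (∃ H ∈ T, val q H ≠ 0) →
    ∃ a, ∃ x : Fin (n a + 1) → k, Pt (F a) (Q a) x ∧ ∃ c : k, q = c • im (G a) x

/-- The point `z` of `{Φ = 0}` over `L` is the image of a point of `{F = 0, Q ≠ 0}` over an
extension of `L` of degree at most `r`. -/
def Lift (F : ι → MvPolynomial (Fin (n + 1)) k) (Q : MvPolynomial (Fin (n + 1)) k)
    (G : Fin (M + 1) → MvPolynomial (Fin (n + 1)) k) (r : ℕ) {L : Type} [Field L] [Algebra k L]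
    (z : Fin (M + 1) → L) : Prop :=
  ∃ (E : Type) (_ : Field E) (_ : Algebra L E) (_ : Algebra k E) (_ : IsScalarTower k L E)
    (_ : FiniteDimensional L E) (u : Fin (n + 1) → E) (c : E),
    Module.finrank L E ≤ r ∧ Pt F Q u ∧ c ≠ 0 ∧ ∀ j, algebraMap L E (z j) = c * im G u j

end Pool.Agent.X333.PW
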