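import Pool.Agent.X333.PW.Core

/-!
Lifting the points of the union of the images to finite extensions.
-/

set_option autoImplicit false
set_option maxHeartbeats 400000
set_option linter.overlappingInstances false
set_option linter.unusedSectionVars false

namespace Pool.Agent.X333.PW

open Pool.Agent.W602.GT Pool.Agent.Y221.FQ MvPolynomial

variable {k : Type} [Field k] [IsAlgClosed k] {n M : ℕ} {ι μ : Type}
  {F : ι → MvPolynomial (Fin (n + 1)) k} {Q : MvPolynomial (Fin (n + 1)) k}
  {Φ : μ → MvPolynomial (Fin (M + 1)) k} {G : Fin (M + 1) → MvPolynomial (Fin (n + 1)) k}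

/-- fibres over extensions -/
theorem fib_ext {r : ℕ} (hfib : FibLe F Q G r) (hG : MapOn F Q Φ G)
    {K : Type} [Field K] [Algebra k K] (y : Fin (r + 1) → Fin (n + 1) → K)
    (hy : ∀ i, Pt F Q (y i))
    (hyG : ∀ i j a b, im G (y i) a * im G (y j) b = im G (y i) b * im G (y j) a) :
    ∃ i j, i ≠ j ∧ ∀ a b, y i a * y j b = y i b * y j a := by
  classical
  by_contra hcon
  push Not at hcon
  have h1 : ∀ p : Fin (r + 1) × Fin (r + 1), ∃ q : Fin (n + 1) × Fin (n + 1), p.1 ≠ p.2 →
      y p.1 q.1 * y p.2 q.2 ≠ y p.1 q.2 * y p.2 q.1 := by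
    intro p
    by_cases hp : p.1 = p.2
    · exact ⟨(0, 0), fun h => absurd hp h⟩
    · obtain ⟨a, b, hab⟩ := hcon _ _ hp
      exact ⟨(a, b), fun _ => hab⟩
  choose q hq using h1
  have h2 : ∀ i, ∃ a, y i a ≠ 0 := fun i => Function.ne_iff.1 (hy i).1
  choose a ha using h2
  let σ : Type := Fin (r + 1) × Fin (n + 1)
  let z : σ → K := fun s => y s.1 s.2
  let T : ∀ (i : Fin (r + 1)), MvPolynomial (Fin (n + 1)) k →ₐ[k] MvPolynomial σ k := fun i =>
    aeval fun l => X (i, l)
  have hT : ∀ (L : Type) [Field L] [Algebra k L] (u : σ → L) (i : Fin (r + 1))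
      (p : MvPolynomial (Fin (n + 1)) k), aeval u (T i p) = val (fun l => u (i, l)) p := by
    intro L _ _ u i p
    have h3 : (aeval u : MvPolynomial σ k →ₐ[k] L).comp (T i) = aeval fun l => u (i, l) := by
      apply MvPolynomial.algHom_ext
      intro l
      simp only [T]
      rw [AlgHom.comp_apply, aeval_X, aeval_X, aeval_X]
    exact DFunLike.congr_fun h3 p
  let mn : Fin (r + 1) × Fin (r + 1) → MvPolynomial σ k := fun p =>
    if p.1 = p.2 then 1 else X (p.1, (q p).1) * X (p.2, (q p).2) -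
      X (p.1, (q p).2) * X (p.2, (q p).1)
  let H : MvPolynomial σ k := (∏ p, mn p) * ∏ i, (X (i, a i) * T i Q)
  have hH : aeval z H ≠ 0 := by
    simp only [H]
    rw [map_mul, map_prod, map_prod]
    refine mul_ne_zero (Finset.prod_ne_zero_iff.2 fun p _ => ?_)
      (Finset.prod_ne_zero_iff.2 fun i _ => ?_)
    · simp only [mn]
      split_ifs with hp
      · rw [map_one]
        exact one_ne_zero
      · rw [map_sub, map_mul, map_mul, aeval_X, aeval_X, aeval_X, aeval_X]
        exact sub_ne_zero.2 (hq p hp)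
    · rw [map_mul, aeval_X, hT]
      exact mul_ne_zero (ha i) (hy i).2.2
  obtain ⟨z0, hz0, hrel⟩ := specialise z H hH
  simp only [H] at hz0
  rw [map_mul, map_prod, map_prod] at hz0
  have h3 := Finset.prod_ne_zero_iff.1 (left_ne_zero_of_mul hz0)
  have h4 := Finset.prod_ne_zero_iff.1 (right_ne_zero_of_mul hz0)
  let x : Fin (r + 1) → Fin (n + 1) → k := fun i l => z0 (i, l)
  have hx : ∀ i, Pt F Q (x i) := by
    intro i
    have h5 := h4 i (Finset.mem_univ i)
    rw [map_mul, aeval_X, hT] at h5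
    refine ⟨fun h0 => left_ne_zero_of_mul h5 (congrFun h0 (a i)), fun e => ?_,
      right_ne_zero_of_mul h5⟩
    have h5 := hrel (T i (F e)) (by rw [hT]; exact (hy i).2.1 e)
    rw [hT] at h5
    exact h5
  have hxG : ∀ i j, ∃ c : k, im G (x i) = c • im G (x j) := by
    intro i j
    obtain ⟨b, hb⟩ := Function.ne_iff.1 (hG.maps (x j) (hx j)).1
    have h5 : ∀ l, im G (x i) l * im G (x j) b = im G (x i) b * im G (x j) l := by
      intro l
      have h6 := hrel (T i (G l) * T j (G b) - T i (G b) * T j (G l)) (by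
        rw [map_sub, map_mul, map_mul, hT, hT, hT, hT]
        exact sub_eq_zero.2 (hyG i j l b))
      rw [map_sub, map_mul, map_mul, hT, hT, hT, hT] at h6
      exact sub_eq_zero.1 h6
    refine ⟨im G (x i) b / im G (x j) b, ?_⟩
    funext l
    have hb' : im G (x j) b ≠ 0 := hb
    rw [Pi.smul_apply, smul_eq_mul]
    field_simp
    linear_combination h5 l
  obtain ⟨i, j, hij, c, hc⟩ := hfib x hx hxG
  have h5 := h3 (i, j) (Finset.mem_univ _)
  simp only [mn] at h5
  rw [if_neg hij, map_sub, map_mul, map_mul, aeval_X, aeval_X, aeval_X, aeval_X] at h5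
  apply h5
  have h6 : ∀ l, z0 (i, l) = c * z0 (j, l) := fun l => congrFun hc l
  rw [h6, h6]
  ring

theorem ff_of_forms {Ω : Type} [Field Ω] [Algebra k Ω] (hFf : ∀ e, IsForm (F e))
    (hQ : IsForm Q) {y : Fin (n + 1) → Ω} (hy : Pt F Q y) {c : Ω} (hc : c ≠ 0) :
    Pt F Q fun i => c * y i := by
  refine ⟨fun h0 => hy.1 ?_, fun e => ?_, ?_⟩
  · funext i
    have h1 : c * y i = 0 := congrFun h0 i
    exact (mul_eq_zero.1 h1).resolve_left hc
  · obtain ⟨d, hd⟩ := hFf e
    rw [val_smul hd, hy.2.1, mul_zero]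
  · obtain ⟨d, hd⟩ := hQ
    rw [val_smul hd]
    exact mul_ne_zero (pow_ne_zero _ hc) hy.2.2

/-- **The degree.** -/
theorem lift_of_pt [CharZero k] {r : ℕ} (hfib : FibLe F Q G r) (hFf : ∀ e, IsForm (F e))
    (hG : MapOn F Q Φ G) {E0 Ω : Type} [Field E0] [Field Ω] [Algebra k E0] [Algebra k Ω]
    [Algebra E0 Ω] [IsScalarTower k E0 Ω] [IsAlgClosed Ω] [Algebra.IsAlgebraic E0 Ω]
    {z : Fin (M + 1) → E0} (hz : z ≠ 0) {y : Fin (n + 1) → Ω} (hy : Pt F Q y)
    (hyG : ∀ a b, algebraMap E0 Ω (z a) * im G y b = algebraMap E0 Ω (z b) * im G y a) :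
    Lift F Q G r z := by
  classical
  obtain ⟨e, hGe⟩ := hG.form
  obtain ⟨i0, hi0'⟩ := Function.ne_iff.1 hy.1
  have hi0 : y i0 ≠ 0 := hi0'
  obtain ⟨b, hb'⟩ := Function.ne_iff.1 hz
  have hb : z b ≠ 0 := hb'
  have hbΩ : algebraMap E0 Ω (z b) ≠ 0 := by
    rw [Ne, map_eq_zero]
    exact hb
  have hch : CharZero E0 := charZero_of_injective_algebraMap (algebraMap k E0).injective
  obtain ⟨E, hE⟩ : ∃ E, E = IntermediateField.adjoin E0 (Set.range fun i => y i / y i0) :=
    ⟨_, rfl⟩
  have hfin : FiniteDimensional E0 E := by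
    rw [hE]
    exact IntermediateField.finiteDimensional_adjoin fun x _ =>
      (Algebra.IsAlgebraic.isAlgebraic (R := E0) x).isIntegral
  have hmem : ∀ i, y i / y i0 ∈ E := fun i => by
    rw [hE]
    exact IntermediateField.subset_adjoin E0 _ ⟨i, rfl⟩
  let u : Fin (n + 1) → E := fun i => ⟨y i / y i0, hmem i⟩
  have hu0 : u i0 = 1 := Subtype.ext (div_self hi0)
  let vE : E →ₐ[k] Ω := E.val.restrictScalars k
  have hvu : (fun i => vE (u i)) = fun i => (y i0)⁻¹ * y i := by
    funext i
    change y i / y i0 = _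
    rw [div_eq_mul_inv, mul_comm]
  have hval : ∀ p : MvPolynomial (Fin (n + 1)) k,
      vE (val u p) = val (fun i => (y i0)⁻¹ * y i) p := by
    intro p
    rw [val_map, hvu]
  have hyi := ff_of_forms hFf hG.formQ hy (inv_ne_zero hi0)
  have huPt : Pt F Q u := by
    refine ⟨fun h0 => ?_, fun e' => ?_, fun h0 => ?_⟩
    · have h1 := congrFun h0 i0
      rw [hu0] at h1
      exact one_ne_zero h1
    · apply vE.injective
      change vE _ = vE _
      rw [hval, hyi.2.1, map_zero]
    · apply hyi.2.2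
      rw [← hval, h0, map_zero]
  have hvG : ∀ a, vE (im G u a) = (y i0)⁻¹ ^ e * im G y a := by
    intro a
    unfold im
    rw [hval, val_smul (hGe a)]
  have hvz : ∀ a, vE (algebraMap E0 E (z a)) = algebraMap E0 Ω (z a) := fun a => rfl
  have huG : ∀ a b, im G u a * algebraMap E0 E (z b) = im G u b * algebraMap E0 E (z a) := by
    intro a b
    apply vE.injective
    change vE _ = vE _
    rw [map_mul, map_mul, hvG, hvG, hvz, hvz]
    linear_combination (-(y i0)⁻¹ ^ e) * hyG a b
  have hub : im G u b ≠ 0 := by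
    intro h0
    apply (hG.mem huPt).1
    funext a
    have h1 := huG a b
    rw [h0, zero_mul] at h1
    refine (mul_eq_zero.1 h1).resolve_right ?_
    rw [map_eq_zero]
    exact hb
  have hrk : Module.finrank E0 E ≤ r := by
    by_contra hcon
    push Not at hcon
    have hcard : Fintype.card (Fin (r + 1)) ≤ Fintype.card (E →ₐ[E0] Ω) := by
      rw [AlgHom.card, Fintype.card_fin]
      exact hcon
    obtain ⟨σ⟩ := Function.Embedding.nonempty_of_card_le hcard
    let σk : Fin (r + 1) → E →ₐ[k] Ω := fun i => (σ i).restrictScalars k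
    have hσz : ∀ i a, σk i (algebraMap E0 E (z a)) = algebraMap E0 Ω (z a) := fun i a =>
      (σ i).commutes (z a)
    obtain ⟨i, j, hij, h1⟩ := fib_ext hfib hG (fun i l => σk i (u l)) (fun i => by
      refine ⟨fun h0 => ?_, fun e' => ?_, fun h0 => ?_⟩
      · have h1 := congrFun h0 i0
        change σk i (u i0) = 0 at h1
        rw [hu0, map_one] at h1
        exact one_ne_zero h1
      · rw [← val_map, huPt.2.1, map_zero]
      · rw [← val_map, map_eq_zero] at h0
        exact huPt.2.2 h0) (fun i j a c => by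
      have h2 : ∀ i a, im G (fun l => σk i (u l)) a * algebraMap E0 Ω (z b) =
          im G (fun l => σk i (u l)) b * algebraMap E0 Ω (z a) := by
        intro i a
        have h3 := congrArg (σk i) (huG a b)
        rw [map_mul, map_mul, hσz, hσz] at h3
        unfold im at h3 ⊢
        rw [val_map, val_map] at h3
        exact h3
      have h3 : ∀ i a, im G (fun l => σk i (u l)) a =
          im G (fun l => σk i (u l)) b / algebraMap E0 Ω (z b) * algebraMap E0 Ω (z a) := by
        intro i a
        have := h2 i a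
        field_simp
        linear_combination this
      rw [h3 i a, h3 j c, h3 i c, h3 j a]
      ring)
    apply hij
    apply σ.injective
    have h2 : ∀ l, σ i (u l) = σ j (u l) := by
      intro l
      have h3 := h1 l i0
      have h4 : ∀ i, σk i (u i0) = 1 := fun i => by rw [hu0, map_one]
      rw [h4, h4, mul_one, one_mul] at h3
      exact h3
    refine IntermediateField.algHom_ext_of_eq_adjoin E0 hE ?_
    rintro _ ⟨l, rfl⟩
    exact h2 l
  refine ⟨E, inferInstance, inferInstance, inferInstance, inferInstance, hfin, u,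
    algebraMap E0 E (z b) / im G u b, hrk, huPt, ?_, fun j => ?_⟩
  · refine div_ne_zero ?_ hub
    rw [Ne, map_eq_zero]
    exact hb
  · have h1 := huG j b
    field_simp
    linear_combination -h1

end Pool.Agent.X333.PW
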