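import Pool.Agent.X333.PW.Lft

/-!
The points over extension fields of a union of images.
-/

set_option autoImplicit false
set_option maxHeartbeats 400000
set_option linter.overlappingInstances false
set_option linter.unusedSectionVars false

namespace Pool.Agent.X333.PW

open Pool.Agent.W602.GT Pool.Agent.Y221.FQ MvPolynomial

variable {k : Type} [Field k] {n M : ℕ} {ι μ : Type}

/-- base change -/
noncomputable def emb (A : Type) [CommRing A] [Algebra k A] (p : MvPolynomial (Fin (n + 1)) k) :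
    MvPolynomial (Option (Fin (n + 1))) A :=
  rename some (map (algebraMap k A) p)

/-- equations for the points over a given point -/
noncomputable def gens (A : Type) [CommRing A] [Algebra k A]
    (F : ι → MvPolynomial (Fin (n + 1)) k) (Q : MvPolynomial (Fin (n + 1)) k)
    (G : Fin (M + 1) → MvPolynomial (Fin (n + 1)) k) (z : Fin (M + 1) → A) (i : Fin (n + 1)) :
    ι ⊕ (Unit ⊕ (Fin (M + 1) × Fin (M + 1))) → MvPolynomial (Option (Fin (n + 1))) A
  | Sum.inl e => emb A (F e)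
  | Sum.inr (Sum.inl _) => X none * X (some i) * emb A Q - 1
  | Sum.inr (Sum.inr p) => C (z p.1) * emb A (G p.2) - C (z p.2) * emb A (G p.1)

theorem map_emb {A B : Type} [CommRing A] [Algebra k A] [CommRing B] [Algebra k B]
    (φ : A →ₐ[k] B) (p : MvPolynomial (Fin (n + 1)) k) :
    map (φ : A →+* B) (emb A p) = emb B p := by
  unfold emb
  rw [map_rename, map_map]
  have h1 : (φ : A →+* B).comp (algebraMap k A) = algebraMap k B :=
    RingHom.ext fun x => φ.commutes x
  rw [h1]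

theorem map_gens {A B : Type} [CommRing A] [Algebra k A] [CommRing B] [Algebra k B]
    (φ : A →ₐ[k] B) (F : ι → MvPolynomial (Fin (n + 1)) k) (Q : MvPolynomial (Fin (n + 1)) k)
    (G : Fin (M + 1) → MvPolynomial (Fin (n + 1)) k) (z : Fin (M + 1) → A) (i : Fin (n + 1))
    (j : ι ⊕ (Unit ⊕ (Fin (M + 1) × Fin (M + 1)))) :
    map (φ : A →+* B) (gens A F Q G z i j) = gens B F Q G (fun c => φ (z c)) i j := by
  rcases j with e | u | p
  · exact map_emb φ _
  · unfold gens
    rw [map_sub, map_mul, map_mul, map_X, map_X, map_emb, map_one]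
  · unfold gens
    rw [map_sub, map_mul, map_mul, map_C, map_C, map_emb, map_emb]
    rfl

theorem eval_emb {K : Type} [Field K] [Algebra k K] (v : Option (Fin (n + 1)) → K)
    (p : MvPolynomial (Fin (n + 1)) k) : eval v (emb K p) = val (fun l => v (some l)) p := by
  unfold emb Pool.Agent.W602.GT.val
  rw [eval_rename, eval_map, aeval_def]
  rfl

/-- **Nullstellensatz.** -/
theorem exists_zero {σ : Type} [Finite σ] {Ω : Type} [Field Ω] [IsAlgClosed Ω]
    {I : Ideal (MvPolynomial σ Ω)} (hI : I ≠ ⊤) : ∃ v : σ → Ω, ∀ p ∈ I, eval v p = 0 := by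
  obtain ⟨m, hm, hIm⟩ := Ideal.exists_le_maximal I hI
  have hprime := hm.isPrime
  have h1 := MvPolynomial.IsPrime.vanishingIdeal_zeroLocus (K := Ω) m
  by_contra hcon
  push Not at hcon
  have h2 : zeroLocus Ω m = ∅ := by
    rw [Set.eq_empty_iff_forall_notMem]
    intro v hv
    obtain ⟨p, hp, hpv⟩ := hcon v
    apply hpv
    have h3 := hv p (hIm hp)
    rwa [aeval_eq_eval] at h3
  rw [h2, vanishingIdeal_empty] at h1
  exact hm.ne_top h1.symm

/-- **Points over extensions.** -/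
theorem cover_pt [IsAlgClosed k] {α : Type} [Finite α] {n : α → ℕ} {ι : α → Type}
    {F : ∀ a, ι a → MvPolynomial (Fin (n a + 1)) k} {Q : ∀ a, MvPolynomial (Fin (n a + 1)) k}
    {Φ : μ → MvPolynomial (Fin (M + 1)) k}
    {G : ∀ a, Fin (M + 1) → MvPolynomial (Fin (n a + 1)) k}
    {T0 : Set (MvPolynomial (Fin (M + 1)) k)} (hcov : Covers F Q Φ G T0)
    {Ω : Type} [Field Ω] [Algebra k Ω] [IsAlgClosed Ω] {z : Fin (M + 1) → Ω} (hz : z ≠ 0)
    (hzΦ : ∀ e, val z (Φ e) = 0) (hzT : ∃ H ∈ T0, val z H ≠ 0) :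
    ∃ a, ∃ y : Fin (n a + 1) → Ω, Pt (F a) (Q a) y ∧
      ∀ c d, z c * im (G a) y d = z d * im (G a) y c := by
  classical
  by_contra hcon
  push Not at hcon
  obtain ⟨H0, hH0, hzH0⟩ := hzT
  obtain ⟨b, hb'⟩ := Function.ne_iff.1 hz
  have hb : z b ≠ 0 := hb'
  have h1 : ∀ s : (a : α) × Fin (n a + 1), ∃ c : (ι s.1 ⊕ (Unit ⊕ (Fin (M + 1) × Fin (M + 1)))) →₀
      MvPolynomial (Option (Fin (n s.1 + 1))) Ω,
      (c.sum fun j h => h • gens Ω (F s.1) (Q s.1) (G s.1) z s.2 j) = 1 := by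
    rintro ⟨a, i⟩
    rw [← Finsupp.mem_span_range_iff_exists_finsupp]
    change (1 : MvPolynomial (Option (Fin (n a + 1))) Ω) ∈
      Ideal.span (Set.range (gens Ω (F a) (Q a) (G a) z i))
    rw [← Ideal.eq_top_iff_one]
    by_contra hI
    obtain ⟨v, hv⟩ := exists_zero hI
    have hv' : ∀ j, eval v (gens Ω (F a) (Q a) (G a) z i j) = 0 := fun j =>
      hv _ (Ideal.subset_span ⟨j, rfl⟩)
    have hQ := hv' (Sum.inr (Sum.inl ()))
    unfold gens at hQ
    rw [map_sub, map_mul, map_mul, eval_X, eval_X, eval_emb, map_one, sub_eq_zero] at hQ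
    obtain ⟨c, d, hcd⟩ := hcon a (fun l => v (some l)) ⟨fun h0 => by
        have h2 : v (some i) = 0 := congrFun h0 i
        rw [h2, mul_zero, zero_mul] at hQ
        exact zero_ne_one hQ, fun e => by
        have h2 := hv' (Sum.inl e)
        unfold gens at h2
        rwa [eval_emb] at h2, fun h0 => by
        rw [h0, mul_zero] at hQ
        exact zero_ne_one hQ⟩
    apply hcd
    have h2 := hv' (Sum.inr (Sum.inr (c, d)))
    unfold gens at h2
    rw [map_sub, map_mul, map_mul, eval_C, eval_C, eval_emb, eval_emb, sub_eq_zero] at h2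
    exact h2
  choose cf hcf using h1
  -- the coefficients
  obtain ⟨T, hTdef⟩ : ∃ T : Set Ω, T = Set.range z ∪
    ⋃ s : (a : α) × Fin (n a + 1), ⋃ j ∈ ((cf s).support : Set _), ((cf s j).coeffs : Set Ω) :=
    ⟨_, rfl⟩
  have hTfin : T.Finite := by
    rw [hTdef]
    refine (Set.finite_range z).union (Set.finite_iUnion fun s => ?_)
    exact ((cf s).support.finite_toSet).biUnion fun j _ => Finset.finite_toSet _
  have hfT : Finite T := hTfin
  let R := MvPolynomial T k
  let ψ : R →ₐ[k] Ω := aeval (Subtype.val : T → Ω)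
  have hψ : ∀ x ∈ T, ∃ x' : R, ψ x' = x := fun x hx => ⟨X ⟨x, hx⟩, aeval_X _ _⟩
  have hzT' : ∀ c, z c ∈ T := fun c => by
    rw [hTdef]
    exact Or.inl ⟨c, rfl⟩
  let z' : Fin (M + 1) → R := fun c => X ⟨z c, hzT' c⟩
  have hz' : ∀ c, ψ (z' c) = z c := fun c => aeval_X _ _
  have hlift : ∀ s j, ∃ h' : MvPolynomial (Option (Fin (n s.1 + 1))) R,
      map (ψ : R →+* Ω) h' = cf s j := by
    intro s j
    by_cases hj : j ∈ (cf s).support
    · have h2 : cf s j ∈ Set.range (map (ψ : R →+* Ω)) := by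
        rw [mem_range_map_iff_coeffs_subset]
        intro x hx
        refine hψ x ?_
        rw [hTdef]
        refine Or.inr (Set.mem_iUnion.2 ⟨s, Set.mem_iUnion₂.2 ⟨j, hj, hx⟩⟩)
      exact h2
    · refine ⟨0, ?_⟩
      rw [map_zero]
      exact (Finsupp.notMem_support_iff.1 hj).symm
  choose hh hhh using hlift
  have h2 : ∀ {B : Type} [CommRing B] [Algebra k B] (θ : R →ₐ[k] B)
      (p : MvPolynomial (Fin (M + 1)) k), θ (aeval z' p) = aeval (fun c => θ (z' c)) p :=
    fun θ p => MvPolynomial.comp_aeval_apply (f := z') θ p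
  have h3 : (fun c => ψ (z' c)) = z := funext hz'
  obtain ⟨z0, hz0', hrel⟩ := specialise (k := k) (Subtype.val : T → Ω)
    (z' b * aeval z' H0) (by
    change ψ (z' b * aeval z' H0) ≠ 0
    rw [map_mul, hz', h2 ψ, h3]
    exact mul_ne_zero hb hzH0)
  let φ : R →ₐ[k] k := aeval z0
  have hrel' : ∀ {σ : Type} (p : MvPolynomial σ R), map (ψ : R →+* Ω) p = 0 →
      map (φ : R →+* k) p = 0 := by
    intro σ p hp
    ext m
    rw [coeff_map, coeff_zero]
    refine hrel _ ?_
    have h2 := congrArg (coeff m) hp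
    rw [coeff_map, coeff_zero] at h2
    exact h2
  -- the point of `{Φ = 0}`
  let q : Fin (M + 1) → k := fun c => φ (z' c)
  have hz0 : φ (z' b) * φ (aeval z' H0) ≠ 0 := by
    rw [← map_mul]
    exact hz0'
  have hq : q ∈ Cone Φ := by
    refine ⟨fun h0 => ?_, fun e => ?_⟩
    · have h2 : φ (z' b) = 0 := congrFun h0 b
      exact left_ne_zero_of_mul hz0 h2
    · change aeval (fun c => φ (z' c)) (Φ e) = 0
      rw [← h2 φ]
      refine hrel _ ?_
      change ψ (aeval z' (Φ e)) = 0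
      rw [h2 ψ, h3]
      exact hzΦ e
  obtain ⟨a, x, hx, c0, hxc⟩ := hcov q hq ⟨H0, hH0, by
    have h4 := right_ne_zero_of_mul hz0
    rw [h2 φ] at h4
    exact h4⟩
  obtain ⟨i, hi'⟩ := Function.ne_iff.1 hx.1
  have hi : x i ≠ 0 := hi'
  have hD : map (ψ : R →+* Ω) (((cf ⟨a, i⟩).support.sum fun j =>
      hh ⟨a, i⟩ j * gens R (F a) (Q a) (G a) z' i j) - 1) = 0 := by
    rw [map_sub, map_sum, map_one, sub_eq_zero, ← hcf ⟨a, i⟩]
    unfold Finsupp.sum
    refine Finset.sum_congr rfl fun j _ => ?_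
    rw [map_mul, hhh, map_gens, h3]
    rfl
  have hD2 := hrel' _ hD
  rw [map_sub, map_sum, map_one, sub_eq_zero] at hD2
  have h5 := congrArg (eval fun o : Option (Fin (n a + 1)) =>
    o.elim ((x i * val x (Q a))⁻¹) x) hD2
  rw [map_one, map_sum] at h5
  apply zero_ne_one (α := k)
  rw [← h5]
  symm
  refine Finset.sum_eq_zero fun j _ => ?_
  rw [map_mul, map_gens, map_mul]
  refine mul_eq_zero_of_right _ ?_
  rcases j with e | u | p
  · unfold gens
    rw [eval_emb]
    exact hx.2.1 e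
  · unfold gens
    rw [map_sub, map_mul, map_mul, eval_X, eval_X, eval_emb, map_one]
    change (x i * val x (Q a))⁻¹ * x i * val x (Q a) - 1 = 0
    have := hx.2.2
    field_simp
    ring
  · unfold gens
    rw [map_sub, map_mul, map_mul, eval_C, eval_C, eval_emb, eval_emb]
    have h6 : ∀ c, φ (z' c) = c0 * im (G a) x c := fun c => congrFun hxc c
    change φ (z' p.1) * im (G a) x p.2 - φ (z' p.2) * im (G a) x p.1 = 0
    rw [h6, h6]
    ring

/-- **Lifting.** -/
theorem lift_all [IsAlgClosed k] [CharZero k] {α : Type} [Finite α] {n : α → ℕ} {ι : α → Type}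
    {F : ∀ a, ι a → MvPolynomial (Fin (n a + 1)) k} {Q : ∀ a, MvPolynomial (Fin (n a + 1)) k}
    {Φ : μ → MvPolynomial (Fin (M + 1)) k}
    {G : ∀ a, Fin (M + 1) → MvPolynomial (Fin (n a + 1)) k} {r : α → ℕ}
    {T0 : Set (MvPolynomial (Fin (M + 1)) k)} (hcov : Covers F Q Φ G T0)
    (hG : ∀ a, MapOn (F a) (Q a) Φ (G a)) (hFf : ∀ a e, IsForm (F a e)) (hfib : ∀ a, FibLe (F a) (Q a) (G a) (r a))
    {L : Type} [Field L] [Algebra k L] {z : Fin (M + 1) → L} (hz : z ≠ 0)
    (hzΦ : ∀ e, val z (Φ e) = 0) (hzT : ∃ H ∈ T0, val z H ≠ 0) :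
    ∃ a, Lift (F a) (Q a) (G a) (r a) z := by
  obtain ⟨b, hb⟩ := Function.ne_iff.1 hz
  let Ω := AlgebraicClosure L
  have hv : ∀ p, algebraMap L Ω (val z p) = val (fun j => algebraMap L Ω (z j)) p := fun p =>
    val_map (IsScalarTower.toAlgHom k L Ω) p z
  obtain ⟨H0, hH0, hzH0⟩ := hzT
  obtain ⟨a, y, hy, hyG⟩ := cover_pt hcov (z := fun j => algebraMap L Ω (z j)) (fun h0 => by
      have h1 := congrFun h0 b
      exact hb ((map_eq_zero _).1 h1)) (fun e => by
      rw [← hv, hzΦ, map_zero]) ⟨H0, hH0, by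
      rw [← hv]
      exact (map_ne_zero _).2 hzH0⟩
  exact ⟨a, lift_of_pt (Ω := Ω) (hfib a) (hFf a) (hG a) hz hy hyG⟩

end Pool.Agent.X333.PW
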