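import Pool.Agent.X333.PW.Ana
import Pool.Agent.X333.MC.Core

/-!
Points of the varieties given by nested sums of high powers over fields with Borel's lemma: they are
points of a rational variety inside it, the image of a torus.
-/

set_option autoImplicit false
set_option maxHeartbeats 400000
set_option linter.overlappingInstances false
set_option linter.unusedSectionVars false

open MvPolynomial IntermediateField

namespace Pool.Agent.X333.PW

open Pool.Agent.W602.GT Pool.Agent.TH710.ND Pool.Agent.Y221.FQ Pool.Agent.X333.DN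
open Pool.Agent.X333.MC (lat)

/-- the coordinates of a point of a torus and their inverses -/
def tw {k : ℕ} {A : Type} [Inv A] (T : Fin k → A) : Fin k ⊕ Fin k → A :=
  Sum.elim T fun j => (T j)⁻¹

theorem tw_clear {k : ℕ} (R : MvPolynomial (Fin k ⊕ Fin k) ℂ) :
    ∃ (m : ℕ) (R' : MvPolynomial (Fin k) ℂ), ∀ (A : Type) [Field A] [Algebra ℂ A] (T : Fin k → A),
      (∀ j, T j ≠ 0) → aeval T R' = (∏ j, T j) ^ m * aeval (tw T) R := by
  classical
  induction R using MvPolynomial.induction_on with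
  | C a =>
    refine ⟨0, C a, fun A _ _ T _ => ?_⟩
    rw [pow_zero, one_mul, aeval_C, aeval_C]
  | add p q hp hq =>
    obtain ⟨m1, p', hp'⟩ := hp
    obtain ⟨m2, q', hq'⟩ := hq
    refine ⟨m1 + m2, p' * (∏ j, X j) ^ m2 + q' * (∏ j, X j) ^ m1, fun A _ _ T hT => ?_⟩
    rw [map_add, map_mul, map_mul, map_pow, map_pow, map_prod, hp' A T hT, hq' A T hT, map_add]
    simp only [aeval_X]
    ring
  | mul_X p i hp =>
    obtain ⟨m, p', hp'⟩ := hp
    rcases i with i | i
    · refine ⟨m, p' * X i, fun A _ _ T hT => ?_⟩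
      rw [map_mul, hp' A T hT, map_mul, aeval_X, aeval_X]
      simp only [tw, Sum.elim_inl]
      ring
    · refine ⟨m + 1, p' * ∏ j ∈ Finset.univ.erase i, X j, fun A _ _ T hT => ?_⟩
      rw [map_mul, hp' A T hT, map_mul, aeval_X, map_prod]
      simp only [tw, Sum.elim_inr, aeval_X]
      rw [pow_succ]
      have h1 : ∏ j, T j = T i * ∏ j ∈ Finset.univ.erase i, T j :=
        (Finset.mul_prod_erase _ _ (Finset.mem_univ i)).symm
      have h2 : (∏ j, T j) * (T i)⁻¹ = ∏ j ∈ Finset.univ.erase i, T j := by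
        rw [h1, mul_comm (T i), mul_assoc, mul_inv_cancel₀ (hT i), mul_one]
      calc (∏ j, T j) ^ m * aeval (tw T) p * ∏ j ∈ Finset.univ.erase i, T j
          = (∏ j, T j) ^ m * aeval (tw T) p * ((∏ j, T j) * (T i)⁻¹) := by rw [h2]
        _ = _ := by
          unfold tw
          ring

/-- functions vanishing on a torus -/
theorem tw_vanish {k : ℕ} {R : MvPolynomial (Fin k ⊕ Fin k) ℂ}
    (h : ∀ T : Fin k → ℂ, (∀ j, T j ≠ 0) → eval (tw T) R = 0) {E : Type} [Field E] [Algebra ℂ E]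
    {b : Fin k → E} (hb : ∀ j, b j ≠ 0) : aeval (tw b) R = 0 := by
  classical
  obtain ⟨m, R', hR'⟩ := tw_clear R
  have h1 : R' * ∏ j, X j = 0 := by
    refine MvPolynomial.funext fun T => ?_
    rw [map_mul, map_zero, map_prod]
    simp only [eval_X]
    by_cases hT : ∀ j, T j ≠ 0
    · have h2 := hR' ℂ T hT
      rw [aeval_eq_eval, aeval_eq_eval] at h2
      change eval T R' = (∏ j, T j) ^ m * eval (tw T) R at h2
      rw [h2, h T hT, mul_zero, zero_mul]
    · push Not at hT
      obtain ⟨j, hj⟩ := hT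
      rw [Finset.prod_eq_zero (Finset.mem_univ j) hj, mul_zero]
  have h2 : R' = 0 := by
    rcases mul_eq_zero.1 h1 with h3 | h3
    · exact h3
    · exact absurd h3 (Finset.prod_ne_zero_iff.2 fun j _ => X_ne_zero j)
  have h3 := hR' E b hb
  rw [h2, map_zero] at h3
  have h4 : (∏ j, b j) ^ m ≠ 0 := pow_ne_zero _ (Finset.prod_ne_zero_iff.2 fun j _ => hb j)
  exact (mul_eq_zero.1 h3.symm).resolve_left h4

section param

variable {E : Type} [Field E] [Algebra ℂ E] {n : ℕ} {ι : Type}
  {F : ι → MvPolynomial (Fin (n + 1)) ℂ} {u : Fin (n + 1) → E}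

theorem eval_of_aeval {x : Fin (n + 1) → ℂ} {P : MvPolynomial (Fin (n + 1)) ℂ}
    (h : aeval (fun i => algebraMap ℂ E (x i)) P = 0) : eval x P = 0 := by
  apply (algebraMap ℂ E).injective
  have h1 := MvPolynomial.aeval_algebraMap_apply (A := ℂ) E x P
  rw [map_zero, ← h]
  have h2 : (aeval x P : ℂ) = eval x P := by
    rw [aeval_eq_eval]
  rw [← h2]
  exact h1.symm

/-- the linear hull -/
theorem param_lin {s N h : ℕ} (hN : 1 ≤ N)
    (hB : BorW (⊥ : IntermediateField ℂ E) (2 * s) N)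
    (hF : ∀ e, NestedIn IsLin s N h (F e)) (huF : ∀ e, aeval u (F e) = 0) :
    ∃ (k : ℕ) (b : Fin k → E) (W : Fin (n + 1) → MvPolynomial (Fin k ⊕ Fin k) ℂ),
      (∀ j, b j ≠ 0) ∧ (∀ i, aeval (tw b) (W i) = u i) ∧
      ∀ T : Fin k → ℂ, (∀ j, T j ≠ 0) → ∀ e, eval (fun i => eval (tw T) (W i)) (F e) = 0 := by
  classical
  let S : Submodule ℂ E := Submodule.span ℂ (Set.range u)
  have hfin : Module.Finite ℂ S := Module.Finite.span_of_finite ℂ (Set.finite_range u)
  let β := Module.finBasis ℂ S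
  have huS : ∀ i, u i ∈ S := fun i => Submodule.subset_span ⟨i, rfl⟩
  let A : Fin (n + 1) → Fin (Module.finrank ℂ S) → ℂ := fun i => β.repr ⟨u i, huS i⟩
  have hA : ∀ i, ∑ j, A i j • (β j : E) = u i := by
    intro i
    have h1 := congrArg (Subtype.val) (β.sum_repr ⟨u i, huS i⟩)
    rw [Submodule.coe_sum] at h1
    exact h1
  refine ⟨Module.finrank ℂ S, fun j => (β j : E), fun i => ∑ j, C (A i j) * X (Sum.inl j),
    fun j h0 => β.ne_zero j (Subtype.ext h0), fun i => ?_, fun T _ e => ?_⟩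
  · rw [← hA i, map_sum]
    refine Finset.sum_congr rfl fun j _ => ?_
    rw [map_mul, aeval_C, aeval_X, Algebra.smul_def]
    rfl
  · have hx : (fun i => eval (tw T) (∑ j, C (A i j) * X (Sum.inl j) :
        MvPolynomial (Fin (Module.finrank ℂ S) ⊕ Fin (Module.finrank ℂ S)) ℂ)) =
        fun i => ∑ j, A i j * T j := by
      funext i
      rw [map_sum]
      refine Finset.sum_congr rfl fun j _ => ?_
      rw [map_mul, eval_C, eval_X]
      rfl
    rw [hx]
    -- the functional
    let φ : S →ₗ[ℂ] ℂ := β.constr ℂ T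
    have hφ : ∀ i, φ ⟨u i, huS i⟩ = ∑ j, A i j * T j := by
      intro i
      change (β.constr ℂ T) _ = _
      rw [Module.Basis.constr_apply_fintype]
      rfl
    have hlin : ∀ a : Fin (n + 1) → ℂ, (∑ i, algebraMap ℂ E (a i) * u i) ∈ S := by
      intro a
      refine S.sum_mem fun i _ => ?_
      rw [← Algebra.smul_def]
      exact S.smul_mem _ (huS i)
    have hφl : ∀ a : Fin (n + 1) → ℂ, φ ⟨∑ i, algebraMap ℂ E (a i) * u i, hlin a⟩ =
        ∑ i, a i * ∑ j, A i j * T j := by
      intro a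
      have h1 : (⟨∑ i, algebraMap ℂ E (a i) * u i, hlin a⟩ : S) =
          ∑ i, a i • (⟨u i, huS i⟩ : S) := by
        apply Subtype.ext
        rw [Submodule.coe_sum]
        change ∑ i, algebraMap ℂ E (a i) * u i = _
        refine Finset.sum_congr rfl fun i _ => ?_
        rw [Submodule.coe_smul, Algebra.smul_def]
      rw [h1, map_sum]
      refine Finset.sum_congr rfl fun i _ => ?_
      rw [map_smul, hφ, smul_eq_mul]
    have hav : ∀ (a : Fin (n + 1) → ℂ), aeval (fun i => algebraMap ℂ E (∑ j, A i j * T j))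
        (∑ j, C (a j) * X j : MvPolynomial (Fin (n + 1)) ℂ) =
        algebraMap ℂ E (φ ⟨∑ i, algebraMap ℂ E (a i) * u i, hlin a⟩) := by
      intro a
      rw [hφl, map_sum, map_sum]
      refine Finset.sum_congr rfl fun i _ => ?_
      rw [map_mul, map_mul, aeval_C, aeval_X]
    have hau : ∀ (a : Fin (n + 1) → ℂ), aeval u
        (∑ j, C (a j) * X j : MvPolynomial (Fin (n + 1)) ℂ) =
        ∑ i, algebraMap ℂ E (a i) * u i := by
      intro a
      rw [map_sum]
      refine Finset.sum_congr rfl fun i _ => ?_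
      rw [map_mul, aeval_C, aeval_X]
    have hE : Env (⊥ : IntermediateField ℂ E) IsLin u
        (fun i => algebraMap ℂ E (∑ j, A i j * T j)) := by
      refine ⟨?_, ?_⟩
      · rintro p ⟨a, rfl⟩ h
        rw [hav]
        rw [hau] at h
        have h1 : (⟨∑ i, algebraMap ℂ E (a i) * u i, hlin a⟩ : S) = 0 := Subtype.ext h
        rw [h1, map_zero, map_zero]
      · rintro p q ⟨a, rfl⟩ ⟨c, rfl⟩ hp hq hW
        rw [hau] at hp hq
        rw [hau, hau] at hW
        rw [hav, hav, hau, hau]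
        obtain ⟨d, hd⟩ := IntermediateField.mem_bot.1 hW
        have h1 : ∑ i, algebraMap ℂ E (a i) * u i =
            algebraMap ℂ E d * ∑ i, algebraMap ℂ E (c i) * u i := by
          rw [hd, div_mul_cancel₀ _ hq]
        have h2 : (⟨∑ i, algebraMap ℂ E (a i) * u i, hlin a⟩ : S) =
            d • ⟨∑ i, algebraMap ℂ E (c i) * u i, hlin c⟩ := by
          apply Subtype.ext
          rw [Submodule.coe_smul, Algebra.smul_def]
          exact h1
        rw [h2, map_smul, smul_eq_mul, map_mul, h1]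
        change algebraMap ℂ E d * _ * (∑ i, algebraMap ℂ E (c i) * u i) =
          (algebraMap ℂ E d * ∑ i, algebraMap ℂ E (c i) * u i) * _
        ring
    exact eval_of_aeval (nested_w hB hN (Lf := IsLin) (hF e) (huF e) hE)

theorem prod_zpow_smul {m k : ℕ} {b : Fin k → E} (hb : ∀ j, b j ≠ 0) (M : Fin m → Fin k → ℤ)
    (γ : Fin m → ℤ) :
    ∏ i, (∏ j, b j ^ M i j) ^ γ i = ∏ j, b j ^ (∑ i, γ i * M i j) := by
  classical
  have h1 : ∀ i, (∏ j, b j ^ M i j) ^ γ i = ∏ j, b j ^ (γ i * M i j) := by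
    intro i
    rw [← Finset.prod_zpow]
    refine Finset.prod_congr rfl fun j _ => ?_
    rw [mul_comm, zpow_mul]
  rw [Finset.prod_congr rfl fun i _ => h1 i, Finset.prod_comm]
  refine Finset.prod_congr rfl fun j _ => ?_
  induction (Finset.univ : Finset (Fin m)) using Finset.induction_on with
  | empty => simp
  | insert i S hi ih => rw [Finset.prod_insert hi, Finset.sum_insert hi, zpow_add₀ (hb j), ih]

/-- multiplicative coordinates -/
theorem exists_mult {m : ℕ} (y : Fin m → E) (hy : ∀ j, y j ≠ 0) :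
    ∃ (k : ℕ) (b : Fin k → E) (M : Fin m → Fin k → ℤ) (c : Fin m → ℂ),
      (∀ j, b j ≠ 0) ∧ (∀ i, c i ≠ 0) ∧ (∀ i, y i = algebraMap ℂ E (c i) * ∏ j, b j ^ M i j) ∧
      ∀ γ : Fin m → ℤ, ∏ i, y i ^ γ i ∈ (⊥ : IntermediateField ℂ E) →
        ∀ j, ∑ i, γ i * M i j = 0 := by
  classical
  obtain ⟨L, hL⟩ : ∃ L, L = lat (⊥ : IntermediateField ℂ E) y hy := ⟨_, rfl⟩
  have hmem : ∀ γ : Fin m → ℤ, γ ∈ L ↔ ∏ j, y j ^ γ j ∈ (⊥ : IntermediateField ℂ E) := by
    intro γ
    rw [hL]
    exact Iff.rfl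
  have hroot : ∀ (x : E) (l : ℕ), 0 < l → x ^ l ∈ (⊥ : IntermediateField ℂ E) →
      x ∈ (⊥ : IntermediateField ℂ E) := by
    intro x l hl hx
    have hint : IsIntegral (⊥ : IntermediateField ℂ E) x := by
      refine ⟨Polynomial.X ^ l - Polynomial.C ⟨x ^ l, hx⟩,
        Polynomial.monic_X_pow_sub_C _ hl.ne', ?_⟩
      rw [Polynomial.eval₂_sub, Polynomial.eval₂_pow, Polynomial.eval₂_X, Polynomial.eval₂_C]
      exact sub_self _
    obtain ⟨c, hc⟩ := alg_mem (isAlgebraic_iff_isIntegral.2 hint)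
    exact IntermediateField.mem_bot.2 ⟨c, hc⟩
  have hpow : ∀ (γ : Fin m → ℤ) (c : ℤ), ∏ j, y j ^ (c • γ) j = (∏ j, y j ^ γ j) ^ c := by
    intro γ c
    rw [← Finset.prod_zpow]
    refine Finset.prod_congr rfl fun j _ => ?_
    rw [Pi.smul_apply, smul_eq_mul, mul_comm, zpow_mul]
  have htf : Module.IsTorsionFree ℤ ((Fin m → ℤ) ⧸ L) := by
    rw [Module.isTorsionFree_iff_smul_eq_zero]
    intro c q hq
    obtain ⟨γ, rfl⟩ := Submodule.Quotient.mk_surjective _ q
    by_cases hc : c = 0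
    · exact Or.inl hc
    · refine Or.inr ?_
      rw [← Submodule.Quotient.mk_smul, Submodule.Quotient.mk_eq_zero, hmem, hpow] at hq
      rw [Submodule.Quotient.mk_eq_zero, hmem]
      have h3 : (∏ j, y j ^ γ j) ^ c.natAbs ∈ (⊥ : IntermediateField ℂ E) := by
        rcases Int.natAbs_eq c with h | h
        · rw [h, zpow_natCast] at hq
          exact hq
        · rw [h, zpow_neg, zpow_natCast] at hq
          have := inv_mem hq
          rwa [inv_inv] at this
      exact hroot _ _ (Int.natAbs_pos.2 hc) h3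
  have hfree : Module.Free ℤ ((Fin m → ℤ) ⧸ L) := inferInstance
  let β := Module.finBasis ℤ ((Fin m → ℤ) ⧸ L)
  choose e he using fun j => Submodule.Quotient.mk_surjective L (β j)
  let M : Fin m → Fin (Module.finrank ℤ ((Fin m → ℤ) ⧸ L)) → ℤ :=
    fun i => β.repr (Submodule.Quotient.mk (Pi.single i 1))
  let b : Fin (Module.finrank ℤ ((Fin m → ℤ) ⧸ L)) → E := fun j => ∏ l, y l ^ e j l
  have hb : ∀ j, b j ≠ 0 := fun j => Finset.prod_ne_zero_iff.2 fun l _ => zpow_ne_zero _ (hy l)
  have hM : ∀ i, (Pi.single i 1 - ∑ j, M i j • e j : Fin m → ℤ) ∈ L := by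
    intro i
    rw [← Submodule.Quotient.mk_eq_zero, Submodule.Quotient.mk_sub, sub_eq_zero]
    have h1 := β.sum_repr (Submodule.Quotient.mk (Pi.single i 1))
    rw [← Submodule.mkQ_apply L (∑ j, M i j • e j), map_sum]
    refine h1.symm.trans (Finset.sum_congr rfl fun j _ => ?_)
    rw [map_smul, Submodule.mkQ_apply, he]
  have hyb : ∀ i, ∏ l, y l ^ (Pi.single i 1 - ∑ j, M i j • e j : Fin m → ℤ) l =
      y i / ∏ j, b j ^ M i j := by
    intro i
    have h1 : ∏ j, b j ^ M i j = ∏ l, y l ^ (∑ j, M i j • e j : Fin m → ℤ) l := by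
      rw [prod_zpow_smul hy]
      refine Finset.prod_congr rfl fun l _ => ?_
      congr 1
      rw [Finset.sum_apply]
      rfl
    rw [h1, eq_div_iff (Finset.prod_ne_zero_iff.2 fun l _ => zpow_ne_zero _ (hy l)),
      ← Finset.prod_mul_distrib]
    have h2 : ∀ l, y l ^ (Pi.single i 1 - ∑ j, M i j • e j : Fin m → ℤ) l *
        y l ^ (∑ j, M i j • e j : Fin m → ℤ) l = y l ^ (Pi.single i (1 : ℤ) : Fin m → ℤ) l := by
      intro l
      rw [← zpow_add₀ (hy l), Pi.sub_apply, sub_add_cancel]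
    rw [Finset.prod_congr rfl fun l _ => h2 l, Finset.prod_eq_single i]
    · rw [Pi.single_eq_same, zpow_one]
    · intro l _ hl
      rw [Pi.single_eq_of_ne hl, zpow_zero]
    · simp
  have hc : ∀ i, ∃ c : ℂ, algebraMap ℂ E c = y i / ∏ j, b j ^ M i j := by
    intro i
    rw [← hyb]
    exact IntermediateField.mem_bot.1 ((hmem _).1 (hM i))
  choose c hc using hc
  have hbp : ∀ i, ∏ j, b j ^ M i j ≠ 0 := fun i =>
    Finset.prod_ne_zero_iff.2 fun j _ => zpow_ne_zero _ (hb j)
  refine ⟨_, b, M, c, hb, fun i h0 => ?_, fun i => ?_, fun γ hγ j => ?_⟩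
  · have h1 := hc i
    rw [h0, map_zero] at h1
    exact div_ne_zero (hy i) (hbp i) h1.symm
  · rw [hc, div_mul_cancel₀ _ (hbp i)]
  · have h1 : (Submodule.Quotient.mk γ : (Fin m → ℤ) ⧸ L) = 0 := by
      rw [Submodule.Quotient.mk_eq_zero, hmem]
      exact hγ
    have h2 : γ = ∑ i, γ i • (Pi.single i 1 : Fin m → ℤ) := by
      funext l
      rw [Finset.sum_apply, Finset.sum_eq_single l]
      · simp
      · intro i _ hi
        simp [hi]
      · simp
    rw [h2, ← Submodule.mkQ_apply, map_sum] at h1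
    have h3 := congrArg (fun q => β.repr q j) h1
    simp only [map_zero, Finsupp.coe_zero, Pi.zero_apply] at h3
    rw [map_sum, Finsupp.finsetSum_apply] at h3
    rw [← h3]
    refine Finset.sum_congr rfl fun i _ => ?_
    rw [map_smul, map_smul, Finsupp.smul_apply, smul_eq_mul, Submodule.mkQ_apply]

/-- the torus orbit -/
theorem param_mono {s N h : ℕ} (hN : 1 ≤ N)
    (hB : BorW (⊥ : IntermediateField ℂ E) (2 * s) N)
    (hF : ∀ e, NestedIn IsMono s N h (F e)) (huF : ∀ e, aeval u (F e) = 0) :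
    ∃ (k : ℕ) (b : Fin k → E) (W : Fin (n + 1) → MvPolynomial (Fin k ⊕ Fin k) ℂ),
      (∀ j, b j ≠ 0) ∧ (∀ i, aeval (tw b) (W i) = u i) ∧
      ∀ T : Fin k → ℂ, (∀ j, T j ≠ 0) → ∀ e, eval (fun i => eval (tw T) (W i)) (F e) = 0 := by
  classical
  obtain ⟨y, hy⟩ : ∃ y : Fin (n + 1) → E, ∀ i, y i = if u i = 0 then 1 else u i := ⟨_, fun _ => rfl⟩
  have hy0 : ∀ i, y i ≠ 0 := by
    intro i
    rw [hy]
    split_ifs with h
    · exact one_ne_zero
    · exact h
  obtain ⟨k, b, M, c, hb, hc, hyb, hind⟩ := exists_mult y hy0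
  have hmon : ∀ (A : Type) [Field A] [Algebra ℂ A] (T : Fin k → A), (∀ j, T j ≠ 0) → ∀ i,
      aeval (tw T) (∏ j, X (Sum.inl j) ^ (M i j).toNat * X (Sum.inr j) ^ (-M i j).toNat :
        MvPolynomial (Fin k ⊕ Fin k) ℂ) = ∏ j, T j ^ M i j := by
    intro A _ _ T hT i
    rw [map_prod]
    refine Finset.prod_congr rfl fun j _ => ?_
    rw [map_mul, map_pow, map_pow, aeval_X, aeval_X]
    change T j ^ (M i j).toNat * (T j)⁻¹ ^ (-M i j).toNat = _
    rw [inv_pow, ← zpow_natCast, ← zpow_natCast, ← zpow_neg, ← zpow_add₀ (hT j)]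
    congr 1
    omega
  refine ⟨k, b, fun i => if u i = 0 then 0 else
    C (c i) * ∏ j, X (Sum.inl j) ^ (M i j).toNat * X (Sum.inr j) ^ (-M i j).toNat, hb,
    fun i => ?_, fun T hT e => ?_⟩
  · dsimp only
    split_ifs with h
    · rw [map_zero, h]
    · rw [map_mul, aeval_C, hmon E b hb, ← hyb, hy, if_neg h]
  · obtain ⟨x', hx'⟩ : ∃ x' : Fin (n + 1) → ℂ, ∀ i, x' i = c i * ∏ j, T j ^ M i j :=
      ⟨_, fun _ => rfl⟩
    have hx'0 : ∀ i, x' i ≠ 0 := fun i => by
      rw [hx']
      exact mul_ne_zero (hc i) (Finset.prod_ne_zero_iff.2 fun j _ => zpow_ne_zero _ (hT j))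
    have hx : (fun i => eval (tw T) (if u i = 0 then 0 else C (c i) *
        ∏ j, X (Sum.inl j) ^ (M i j).toNat * X (Sum.inr j) ^ (-M i j).toNat :
        MvPolynomial (Fin k ⊕ Fin k) ℂ)) = fun i => if u i = 0 then 0 else x' i := by
      funext i
      split_ifs with h
      · rw [map_zero]
      · rw [map_mul, eval_C, hx']
        have h1 := hmon ℂ T hT i
        rw [aeval_eq_eval] at h1
        congr 1
    rw [hx]
    have hkey : ∀ γ : Fin (n + 1) → ℤ, ∏ i, y i ^ γ i ∈ (⊥ : IntermediateField ℂ E) →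
        ∏ i, (algebraMap ℂ E (x' i)) ^ γ i = ∏ i, y i ^ γ i := by
      intro γ hγ
      have h0 := hind γ hγ
      have h1 : ∀ (A : Type) [Field A] [Algebra ℂ A] (t : Fin k → A), (∀ j, t j ≠ 0) →
          ∏ i, (algebraMap ℂ A (c i) * ∏ j, t j ^ M i j) ^ γ i =
            ∏ i, (algebraMap ℂ A (c i)) ^ γ i := by
        intro A _ _ t ht
        have h2 : ∀ i, (algebraMap ℂ A (c i) * ∏ j, t j ^ M i j) ^ γ i =
            (algebraMap ℂ A (c i)) ^ γ i * (∏ j, t j ^ M i j) ^ γ i := fun i => mul_zpow _ _ _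
        have h3 : ∀ j, t j ^ (∑ i, γ i * M i j) = 1 := fun j => by rw [h0 j, zpow_zero]
        rw [Finset.prod_congr rfl fun i _ => h2 i, Finset.prod_mul_distrib, prod_zpow_smul ht,
          Finset.prod_eq_one fun j _ => h3 j, mul_one]
      have h2 : ∀ i, y i ^ γ i = (algebraMap ℂ E (c i) * ∏ j, b j ^ M i j) ^ γ i := fun i => by
        rw [← hyb]
      rw [Finset.prod_congr rfl fun i _ => h2 i, h1 E b hb,
        ← h1 E (fun j => algebraMap ℂ E (T j)) (fun j => by
          rw [Ne, map_eq_zero]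
          exact hT j)]
      refine Finset.prod_congr rfl fun i _ => ?_
      rw [hx', map_mul, map_prod]
      congr 2
      refine Finset.prod_congr rfl fun j _ => ?_
      rw [map_zpow₀]
    have hval : ∀ α : Fin (n + 1) →₀ ℕ, ∏ i, u i ^ α i ≠ 0 →
        ∏ i, u i ^ α i = ∏ i, y i ^ α i ∧
        ∏ i, (algebraMap ℂ E (if u i = 0 then 0 else x' i)) ^ α i =
          ∏ i, (algebraMap ℂ E (x' i)) ^ α i := by
      intro α hα
      rw [Finset.prod_ne_zero_iff] at hα
      refine ⟨Finset.prod_congr rfl fun i _ => ?_, Finset.prod_congr rfl fun i _ => ?_⟩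
      · rw [hy]
        split_ifs with h
        · have h1 := hα i (Finset.mem_univ i)
          rw [h] at h1
          by_cases h2 : α i = 0
          · rw [h2, pow_zero, pow_zero]
          · exact absurd (zero_pow h2) h1
        · rfl
      · split_ifs with h
        · have h1 := hα i (Finset.mem_univ i)
          rw [h] at h1
          by_cases h2 : α i = 0
          · rw [h2, pow_zero, pow_zero]
          · exact absurd (zero_pow h2) h1
        · rfl
    have hE : Env (⊥ : IntermediateField ℂ E) IsMono u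
        (fun i => algebraMap ℂ E (if u i = 0 then 0 else x' i)) := by
      refine ⟨?_, ?_⟩
      · rintro p ⟨α, a, rfl⟩ h
        rw [aeval_mono] at h ⊢
        rcases mul_eq_zero.1 h with h | h
        · rw [h, zero_mul]
        · obtain ⟨i, -, hi⟩ := Finset.prod_eq_zero_iff.1 h
          have hi2 : α i ≠ 0 := fun h0 => by
            rw [h0, pow_zero] at hi
            exact one_ne_zero hi
          have hi1 : u i = 0 := (pow_eq_zero_iff hi2).1 hi
          rw [Finset.prod_eq_zero (Finset.mem_univ i), mul_zero]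
          rw [if_pos hi1, map_zero, zero_pow hi2]
      · rintro p q ⟨α, a, rfl⟩ ⟨β, d, rfl⟩ hp hq hW
        rw [aeval_mono] at hp hq
        rw [aeval_mono, aeval_mono] at hW
        rw [aeval_mono, aeval_mono, aeval_mono, aeval_mono]
        have hp1 := left_ne_zero_of_mul hp
        have hp2 := right_ne_zero_of_mul hp
        have hq1 := left_ne_zero_of_mul hq
        have hq2 := right_ne_zero_of_mul hq
        obtain ⟨h1, h2⟩ := hval α hp2
        obtain ⟨h3, h4⟩ := hval β hq2
        have hsub : ∀ t : Fin (n + 1) → E, (∀ i, t i ≠ 0) →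
            ∏ i, t i ^ ((α i : ℤ) - (β i : ℤ)) = (∏ i, t i ^ α i) / ∏ i, t i ^ β i := by
          intro t ht
          rw [← Finset.prod_div_distrib]
          refine Finset.prod_congr rfl fun i _ => ?_
          rw [zpow_sub₀ (ht i), zpow_natCast, zpow_natCast]
        have h5 : ∏ i, y i ^ ((α i : ℤ) - (β i : ℤ)) ∈ (⊥ : IntermediateField ℂ E) := by
          rw [hsub y hy0, ← h1, ← h3]
          have h6 : (∏ i, u i ^ α i) / ∏ i, u i ^ β i =
              (algebraMap ℂ E a * ∏ i, u i ^ α i) / (algebraMap ℂ E d * ∏ i, u i ^ β i) *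
                (algebraMap ℂ E d * (algebraMap ℂ E a)⁻¹) := by
            field_simp
          rw [h6]
          exact mul_mem hW (mul_mem (IntermediateField.algebraMap_mem _ _)
            (inv_mem (IntermediateField.algebraMap_mem _ _)))
        have h6 := hkey _ h5
        have hx'E : ∀ i, algebraMap ℂ E (x' i) ≠ 0 := fun i => by
          rw [Ne, map_eq_zero]
          exact hx'0 i
        rw [hsub _ hx'E, hsub y hy0, ← h1, ← h3, div_eq_div_iff
          (Finset.prod_ne_zero_iff.2 fun i _ => pow_ne_zero _ (hx'E i)) hq2] at h6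
        rw [h2, h4]
        change algebraMap ℂ E a * _ * (algebraMap ℂ E d * _) =
          (algebraMap ℂ E a * _) * (algebraMap ℂ E d * _)
        linear_combination algebraMap ℂ E a * algebraMap ℂ E d * h6
    exact eval_of_aeval (nested_w hB hN (Lf := IsMono) (hF e) (huF e) hE)

/-- **Rational varieties through points over fields with Borel's lemma.** -/
theorem param_tower {s N h : ℕ} (hF : HighTowers s N h F) (hN : 1 ≤ N)
    (hB : BorW (⊥ : IntermediateField ℂ E) (2 * s) N) (huF : ∀ e, val u (F e) = 0) :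
    ∃ (k : ℕ) (b : Fin k → E) (W : Fin (n + 1) → MvPolynomial (Fin k ⊕ Fin k) ℂ),
      (∀ j, b j ≠ 0) ∧ (∀ i, aeval (tw b) (W i) = u i) ∧
      ∀ T : Fin k → ℂ, (∀ j, T j ≠ 0) → ∀ e, eval (fun i => eval (tw T) (W i)) (F e) = 0 := by
  rcases hF with h | h
  · exact param_lin hN hB h huF
  · exact param_mono hN hB (fun e => (h e).2) huF

end param

end Pool.Agent.X333.PW
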